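import Pool.Agent.Helper16.HW.A1

/-! Block A2 of MP_074879_pr. -/

open Finset

namespace HW

section A2
variable (w : ℕ → ℝ) (K : ℕ) (θ : ℝ) (e L : ℕ)

theorem Inv.e_ge {w : ℕ → ℝ} {K : ℕ} {θ : ℝ} {e L : ℕ} (h : Inv w K θ e L) : 10 ^ 15 ≤ e := by
  calc 10 ^ 15 = 1000 ^ 5 := by norm_num
    _ ≤ L ^ 5 := Nat.pow_le_pow_left h.L_ge 5
    _ ≤ e := h.L_le

theorem Inv.eps_pos {w : ℕ → ℝ} {K : ℕ} {θ : ℝ} {e L : ℕ} (h : Inv w K θ e L) :
    0 < epsL w K := by
  have h1 := h.tau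
  have h2 := h.θ_pos
  have h3 : (1000 : ℝ) ≤ L := by exact_mod_cast h.L_ge
  have h4 : 0 < θ * (epsL w K * 2 ^ e) := by linarith
  have h5 : 0 < epsL w K * 2 ^ e := (pos_iff_pos_of_mul_pos h4).mp h2
  exact (pos_iff_pos_of_mul_pos h5).mpr (by positivity)

theorem Inv.w_le_one {w : ℕ → ℝ} {K : ℕ} {θ : ℝ} {e L : ℕ} (h : Inv w K θ e L) (k : ℕ) :
    w k ≤ 1 := by
  by_cases hk : k < K
  · rw [← h.law.one]
    exact single_le_sum (fun i _ => h.law.nonneg i) (mem_range.mpr hk)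
  · rw [h.law.supp k (by omega)]; norm_num

theorem Inv.eps_le_one {w : ℕ → ℝ} {K : ℕ} {θ : ℝ} {e L : ℕ} (h : Inv w K θ e L) :
    epsL w K ≤ 1 := by
  unfold epsL
  calc ∑ k ∈ range K, (1 - (k : ℝ)) * w k ≤ ∑ k ∈ range K, w k := by
        apply sum_le_sum
        intro k _
        have := h.law.nonneg k
        have hk : (0 : ℝ) ≤ k := Nat.cast_nonneg k
        nlinarith
    _ = 1 := h.law.one

theorem le_nextK (w : ℕ → ℝ) (K e L : ℕ) : K ≤ nextK w K e L := le_max_left _ _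

theorem pow_poly_aux (e : ℕ) (he : 1000 ≤ e) : (e : ℝ) ^ 26 ≤ 2 ^ (3 * e) := by
  have h1 : (1000 : ℝ) ≤ e := by exact_mod_cast he
  have h2 : (e : ℝ) ≤ Real.exp ((e : ℝ) / 13) := by
    have h3 : ((e : ℝ) / 13) ^ 2 / (Nat.factorial 2) ≤ Real.exp ((e : ℝ) / 13) :=
      Real.pow_div_factorial_le_exp _ (by positivity) 2
    refine le_trans ?_ h3
    norm_num [Nat.factorial]
    nlinarith
  have h4 : (e : ℝ) ^ 26 ≤ Real.exp (2 * (e : ℝ)) := by
    calc (e : ℝ) ^ 26 ≤ (Real.exp ((e : ℝ) / 13)) ^ 26 := by gcongr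
      _ = Real.exp (2 * (e : ℝ)) := by rw [← Real.exp_nat_mul]; congr 1; push_cast; ring
  refine h4.trans ?_
  have h5 : Real.exp 2 ≤ 8 := by
    have := Real.exp_one_lt_d9
    have h6 : Real.exp 2 = Real.exp 1 * Real.exp 1 := by rw [← Real.exp_add]; norm_num
    rw [h6]; nlinarith [Real.exp_pos 1]
  calc Real.exp (2 * (e : ℝ)) = (Real.exp 2) ^ e := by rw [← Real.exp_nat_mul]; ring_nf
    _ ≤ 8 ^ e := by gcongr
    _ = 2 ^ (3 * e) := by rw [pow_mul]; norm_num

/-- `ε ≥ 2^{-e/8}` -/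
theorem Inv.eps_pow (h : Inv w K θ e L) : 0 < epsL w K ∧ epsL w K ≤ 1 ∧
    1 ≤ (epsL w K) ^ 8 * 2 ^ e := by
  refine ⟨h.eps_pos, h.eps_le_one, ?_⟩
  have hD1 : Dp w 1 = w 0 := by
    unfold Dp
    simp [sum_range_succ]
  have hw0 : (9 / 20 : ℝ) ≤ w 0 := by
    have := h.w0
    have h2 : (0 : ℝ) ≤ 1 / (e : ℝ) := by positivity
    linarith
  have hDK : Dp w (2 ^ (e + 3)) = epsL w K := by
    apply Dp_eq_eps w K h.law.supp
    have := h.K_le
    have h2 : (K : ℝ) ≤ ((2 ^ (e + 3) + 1 : ℕ) : ℝ) := by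
      push_cast
      rw [pow_add]; linarith
    exact_mod_cast h2
  have hstep : ∀ j : ℕ, Dp w 1 ≤ (1 + 1 / 250) ^ j * Dp w (2 ^ j) := by
    intro j
    induction j with
    | zero => simp
    | succ j ih =>
      refine ih.trans ?_
      rw [pow_succ, mul_assoc]
      apply mul_le_mul_of_nonneg_left _ (by positivity)
      have := Dp_slow w h.law.nonneg h.reg (2 ^ j) Nat.one_le_two_pow
      rw [pow_succ, mul_comm (2 ^ j) 2]
      exact this
  have h1 := hstep (e + 3)
  rw [hD1, hDK] at h1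
  set ε := epsL w K with hε
  have hεpos := h.eps_pos
  rw [← hε] at hεpos
  have h2 : (9 / 20 : ℝ) ≤ (1 + 1 / 250) ^ (e + 3) * ε := hw0.trans h1
  have h3 : (9 / 20 : ℝ) ^ 8 ≤ ((1 + 1 / 250) ^ (e + 3) * ε) ^ 8 := by gcongr
  have h4 : ((1 + 1 / 250 : ℝ) ^ (e + 3) * ε) ^ 8 ≤ (26 / 25) ^ (e + 3) * ε ^ 8 := by
    rw [mul_pow, ← pow_mul, mul_comm (e + 3) 8, pow_mul]
    gcongr
    norm_num
  have h5 := h3.trans h4
  have he := h.e_ge
  have h6 : ((26 : ℝ) / 25) ^ (e + 3) * (1 / (9 / 20) ^ 8) ≤ 2 ^ e := by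
    have h7 : ((26 : ℝ) / 25) ^ (e + 3) * (1 / (9 / 20) ^ 8) = (26 / 25) ^ e * ((26 / 25) ^ 3 * (1 / (9 / 20) ^ 8)) := by
      rw [pow_add]; ring
    rw [h7]
    have h8 : ((26 / 25 : ℝ) ^ 3 * (1 / (9 / 20) ^ 8)) ≤ 1000 := by norm_num
    have h9 : (1000 : ℝ) ≤ (50 / 26) ^ e := by
      have := one_add_mul_le_pow (a := (50 / 26 - 1 : ℝ)) (by norm_num) e
      have h10 : (10 ^ 15 : ℝ) ≤ e := by exact_mod_cast he
      have h11 : (50 / 26 : ℝ) = 1 + (50 / 26 - 1) := by ring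
      rw [h11]
      refine le_trans ?_ this
      nlinarith
    calc (26 / 25 : ℝ) ^ e * ((26 / 25) ^ 3 * (1 / (9 / 20) ^ 8)) ≤ (26 / 25) ^ e * (50 / 26) ^ e := by
          gcongr
          exact h8.trans h9
      _ = 2 ^ e := by rw [← mul_pow]; norm_num
  have h12 : (1 : ℝ) ≤ (26 / 25) ^ (e + 3) * (1 / (9 / 20) ^ 8) * ε ^ 8 := by
    have : (9 / 20 : ℝ) ^ 8 * (1 / (9 / 20) ^ 8) ≤ ((26 / 25) ^ (e + 3) * ε ^ 8) * (1 / (9 / 20) ^ 8) :=
      mul_le_mul_of_nonneg_right h5 (by positivity)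
    have h13 : (9 / 20 : ℝ) ^ 8 * (1 / (9 / 20) ^ 8) = 1 := by norm_num
    rw [h13] at this
    linarith
  calc (1 : ℝ) ≤ (26 / 25) ^ (e + 3) * (1 / (9 / 20) ^ 8) * ε ^ 8 := h12
    _ ≤ 2 ^ e * ε ^ 8 := by gcongr
    _ = ε ^ 8 * 2 ^ e := by ring

/-- the last tilt is much smaller than the deficit (and everything polynomial in `e`) -/
theorem Inv.theta_small (h : Inv w K θ e L) : (e : ℝ) ^ 3 * θ ≤ epsL w K / 1000 := by
  obtain ⟨hε, hε1, h8⟩ := Inv.eps_pow w K θ e L h
  have hθ := h.θ_pos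
  have hsq := h.θ_sq
  have he := h.e_ge
  have her : (10 ^ 15 : ℝ) ≤ e := by exact_mod_cast he
  set ε := epsL w K
  have hE : (0 : ℝ) < 2 ^ e := by positivity
  have key : (1000 * ((e : ℝ) ^ 3 * θ)) ^ 8 ≤ ε ^ 8 := by
    have h1 : (θ ^ 2 * 2 ^ e) ^ 4 ≤ 1 := pow_le_one₀ (by positivity) hsq
    have h2 : θ ^ 8 * (2 : ℝ) ^ (4 * e) ≤ 1 := by
      calc θ ^ 8 * (2 : ℝ) ^ (4 * e) = (θ ^ 2 * 2 ^ e) ^ 4 := by
            rw [mul_pow, ← pow_mul, ← pow_mul]; congr 2; ring
        _ ≤ 1 := h1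
    have h3 : (1000 * (e : ℝ) ^ 3) ^ 8 ≤ 2 ^ (3 * e) := by
      calc (1000 * (e : ℝ) ^ 3) ^ 8 = 1000 ^ 8 * (e : ℝ) ^ 24 := by ring
        _ ≤ (e : ℝ) ^ 2 * (e : ℝ) ^ 24 := by
            gcongr
            calc (1000 : ℝ) ^ 8 ≤ (10 ^ 15) ^ 2 := by norm_num
              _ ≤ (e : ℝ) ^ 2 := by gcongr
        _ = (e : ℝ) ^ 26 := by ring
        _ ≤ 2 ^ (3 * e) := pow_poly_aux e (by omega)
    have h4 : (1000 * ((e : ℝ) ^ 3 * θ)) ^ 8 * 2 ^ e ≤ 1 := by
      calc (1000 * ((e : ℝ) ^ 3 * θ)) ^ 8 * 2 ^ e = (1000 * (e : ℝ) ^ 3) ^ 8 * θ ^ 8 * 2 ^ e := by ring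
        _ ≤ 2 ^ (3 * e) * θ ^ 8 * 2 ^ e := by gcongr
        _ = θ ^ 8 * (2 : ℝ) ^ (4 * e) := by
            have : (2 : ℝ) ^ (4 * e) = 2 ^ (3 * e) * 2 ^ e := by rw [← pow_add]; ring_nf
            rw [this]; ring
        _ ≤ 1 := h2
    have h5 : (1000 * ((e : ℝ) ^ 3 * θ)) ^ 8 * 2 ^ e ≤ ε ^ 8 * 2 ^ e := h4.trans h8
    exact le_of_mul_le_mul_right h5 hE
  have h6 : 1000 * ((e : ℝ) ^ 3 * θ) ≤ ε := by
    exact le_of_pow_le_pow_left₀ (by norm_num) hε.le key
  linarith

/-- the colour is supported in `(b, 8Mb]`, bounded by `qc`, total mass `≤ 1/(8 L 2^(e+L))`,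
first and second moments -/
theorem Inv.col_facts (h : Inv w K θ e L) :
    (∀ k, 0 ≤ phCol w K θ e L k) ∧
    (∀ k, phCol w K θ e L k ≤ qc L (epsL w K) (epsL w K * 2 ^ e)) ∧
    (∀ k, nextK w K e L ≤ k → phCol w K θ e L k = 0) ∧
    (∀ k : ℕ, (k : ℝ) ≤ epsL w K * 2 ^ e → phCol w K θ e L k = 0) ∧
    (∀ K', ∑ k ∈ range K', phCol w K θ e L k ≤ 1 / (8 * L * 2 ^ (e + L))) ∧
    (∀ K', ∑ k ∈ range K', (k : ℝ) * phCol w K θ e L k ≤ epsL w K / L) ∧
    (∀ x : ℕ, ∑ k ∈ range (x + 1), (k : ℝ) ^ 2 * phCol w K θ e L k ≤ x * (epsL w K / L)) := by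
  have hε := h.eps_pos
  have hθ := h.θ_pos
  have hL : (1000 : ℝ) ≤ L := by exact_mod_cast h.L_ge
  have hL0 : (0 : ℝ) < L := by linarith
  set ε := epsL w K with hεdef
  set b := ε * 2 ^ e with hb
  have hbpos : 0 < b := by positivity
  set B := 8 * 2 ^ L * b with hB
  have hBpos : 0 < B := by positivity
  have hqc : qc L ε b = ε / (L * B ^ 2) := by rw [qc, hB]
  have hqpos : 0 < qc L ε b := by rw [hqc]; positivity
  have hcol : ∀ k : ℕ, phCol w K θ e L k = if b < k ∧ (k : ℝ) ≤ B then qc L ε b * Real.exp (-soft θ b k) else 0 := by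
    intro k; rw [phCol, col]
  have hnn : ∀ k, 0 ≤ phCol w K θ e L k := by
    intro k; rw [hcol]; split_ifs
    · positivity
    · exact le_rfl
  have hle : ∀ k, phCol w K θ e L k ≤ qc L ε b := by
    intro k; rw [hcol]; split_ifs
    · have : Real.exp (-soft θ b k) ≤ 1 := by
        rw [Real.exp_le_one_iff, neg_nonpos, soft]
        positivity
      calc _ ≤ qc L ε b * 1 := by gcongr
        _ = _ := mul_one _
    · exact hqpos.le
  have hsum : ∀ K', ∑ k ∈ range K', phCol w K θ e L k ≤ 1 / (8 * L * 2 ^ (e + L)) := by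
    intro K'
    have h1 : ∑ k ∈ range K', phCol w K θ e L k ≤ ∑ k ∈ Icc 1 ⌊B⌋₊, qc L ε b := by
      have h2 : ∑ k ∈ range K', phCol w K θ e L k =
          ∑ k ∈ (range K').filter (fun k : ℕ => b < (k : ℝ) ∧ (k : ℝ) ≤ B), phCol w K θ e L k := by
        rw [sum_filter]
        apply sum_congr rfl
        intro k _
        rw [hcol]
        split_ifs <;> rfl
      rw [h2]
      calc _ ≤ ∑ k ∈ (range K').filter (fun k : ℕ => b < (k : ℝ) ∧ (k : ℝ) ≤ B), qc L ε b :=
            sum_le_sum (fun k _ => hle k)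
        _ ≤ ∑ k ∈ Icc 1 ⌊B⌋₊, qc L ε b := by
            apply sum_le_sum_of_subset_of_nonneg
            · intro k hk
              rw [mem_filter] at hk
              rw [mem_Icc]
              refine ⟨?_, Nat.le_floor hk.2.2⟩
              have : (0 : ℝ) < k := hbpos.trans hk.2.1
              exact_mod_cast this
            · intro _ _ _; exact hqpos.le
    refine h1.trans ?_
    rw [sum_const, Nat.card_Icc, nsmul_eq_mul, hqc]
    have h3 : ((⌊B⌋₊ + 1 - 1 : ℕ) : ℝ) ≤ B := by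
      rw [Nat.add_sub_cancel]; exact Nat.floor_le hBpos.le
    calc ((⌊B⌋₊ + 1 - 1 : ℕ) : ℝ) * (ε / ((L : ℝ) * B ^ 2)) ≤ B * (ε / ((L : ℝ) * B ^ 2)) := by gcongr
      _ = 1 / (8 * (L : ℝ) * 2 ^ (e + L)) := by
        rw [hB, hb, pow_add]; field_simp
  have hsupB : ∀ k : ℕ, (k : ℝ) * phCol w K θ e L k ≤ B * phCol w K θ e L k := by
    intro k
    by_cases hk : (k : ℝ) ≤ B
    · exact mul_le_mul_of_nonneg_right hk (hnn k)
    · rw [hcol, if_neg (by tauto)]; simp
  have hsum1 : ∀ K', ∑ k ∈ range K', (k : ℝ) * phCol w K θ e L k ≤ ε / L := by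
    intro K'
    calc ∑ k ∈ range K', (k : ℝ) * phCol w K θ e L k ≤ ∑ k ∈ range K', B * phCol w K θ e L k :=
          sum_le_sum (fun k _ => hsupB k)
      _ = B * ∑ k ∈ range K', phCol w K θ e L k := by rw [mul_sum]
      _ ≤ B * (1 / (8 * L * 2 ^ (e + L))) := by gcongr; exact hsum K'
      _ = ε / L := by rw [hB, hb, pow_add]; field_simp
  refine ⟨hnn, hle, ?_, ?_, hsum, hsum1, ?_⟩
  · intro k hk
    rw [hcol, if_neg]
    rintro ⟨-, h2⟩
    have h3 : ⌊B⌋₊ + 1 ≤ k := le_trans (le_max_right _ _) hk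
    have h4 := Nat.lt_floor_add_one B
    have h5 : ((⌊B⌋₊ + 1 : ℕ) : ℝ) ≤ k := by exact_mod_cast h3
    push_cast at h5
    linarith
  · intro k hk
    rw [hcol, if_neg]
    rintro ⟨h1, -⟩
    linarith
  · intro x
    calc ∑ k ∈ range (x + 1), (k : ℝ) ^ 2 * phCol w K θ e L k
        ≤ ∑ k ∈ range (x + 1), (x : ℝ) * ((k : ℝ) * phCol w K θ e L k) := by
          apply sum_le_sum
          intro k hk
          have hk' : (k : ℝ) ≤ x := by
            have := mem_range.mp hk
            exact_mod_cast Nat.lt_succ_iff.mp this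
          have h1 := hnn k
          have : (0 : ℝ) ≤ k := Nat.cast_nonneg k
          rw [pow_two, mul_assoc]
          gcongr
      _ = x * ∑ k ∈ range (x + 1), (k : ℝ) * phCol w K θ e L k := by rw [mul_sum]
      _ ≤ x * (ε / L) := by gcongr; exact hsum1 _

/-- support: sums of `w` beyond `K` -/
theorem Vp_le_K {w : ℕ → ℝ} {K : ℕ} (hw : ∀ k, 0 ≤ w k) (hs : ∀ k, K ≤ k → w k = 0) (x : ℕ) :
    Vp w x ≤ Vp w K := by
  unfold Vp
  calc ∑ k ∈ Ico 2 (x + 1), ((k : ℝ) - 1) ^ 2 * w k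
      = ∑ k ∈ (Ico 2 (x + 1)).filter (fun k => k < K), ((k : ℝ) - 1) ^ 2 * w k := by
        rw [sum_filter]
        apply sum_congr rfl
        intro k _
        split_ifs with hk
        · rfl
        · rw [hs k (by omega), mul_zero]
    _ ≤ ∑ k ∈ Ico 2 (K + 1), ((k : ℝ) - 1) ^ 2 * w k := by
        apply sum_le_sum_of_subset_of_nonneg
        · intro k hk
          rw [mem_filter, mem_Ico] at hk
          rw [mem_Ico]; omega
        · intro k _ _
          have := hw k
          positivity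

/-- adding the colour keeps `Reg` -/
theorem Inv.reg_add (h : Inv w K θ e L) : Reg (fun k => w k + phCol w K θ e L k) := by
  obtain ⟨g0, g1, g2, g3, g4, g5, g6⟩ := Inv.col_facts w K θ e L h
  have hε := h.eps_pos
  have hθ := h.θ_pos
  have hL : (1000 : ℝ) ≤ L := by exact_mod_cast h.L_ge
  have hL0 : (0 : ℝ) < L := by linarith
  have hv2 := h.v2
  have htau := h.tau
  set ε := epsL w K with hεdef
  set b := ε * 2 ^ e with hb
  have hbpos : 0 < b := by positivity
  set g := phCol w K θ e L with hg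
  intro x hx
  by_cases hxb : (x : ℝ) ≤ b
  · have h0 : ∀ k : ℕ, k < x + 1 → g k = 0 := by
      intro k hk
      apply g3
      have : (k : ℝ) ≤ x := by exact_mod_cast Nat.lt_succ_iff.mp hk
      linarith
    have hV : Vp (fun k => w k + g k) x = Vp w x := by
      unfold Vp
      apply sum_congr rfl
      intro k hk
      rw [mem_Ico] at hk
      simp only [h0 k hk.2, add_zero]
    have hD : Dp (fun k => w k + g k) x = Dp w x := by
      unfold Dp
      apply sum_congr rfl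
      intro k hk
      rw [mem_range] at hk
      simp only [h0 k hk, add_zero]
    rw [hV, hD]
    exact h.reg x hx
  · push Not at hxb
    have hx0 : (0 : ℝ) < x := hbpos.trans hxb
    have hV : Vp (fun k => w k + g k) x ≤ 7 / 500 * (ε / θ) + x * (ε / L) := by
      have h1 : Vp (fun k => w k + g k) x = Vp w x + ∑ k ∈ Ico 2 (x + 1), ((k : ℝ) - 1) ^ 2 * g k := by
        unfold Vp
        rw [← sum_add_distrib]
        apply sum_congr rfl
        intro k _
        ring
      rw [h1]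
      apply add_le_add
      · exact (Vp_le_K h.law.nonneg h.law.supp x).trans hv2
      · refine le_trans ?_ (g6 x)
        calc ∑ k ∈ Ico 2 (x + 1), ((k : ℝ) - 1) ^ 2 * g k ≤ ∑ k ∈ Ico 2 (x + 1), (k : ℝ) ^ 2 * g k := by
              apply sum_le_sum
              intro k hk
              rw [mem_Ico] at hk
              have h2 : (2 : ℝ) ≤ k := by exact_mod_cast hk.1
              have h3 := g0 k
              have h4 : ((k : ℝ) - 1) ^ 2 ≤ (k : ℝ) ^ 2 := by nlinarith
              exact mul_le_mul_of_nonneg_right h4 h3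
          _ ≤ ∑ k ∈ range (x + 1), (k : ℝ) ^ 2 * g k := by
              apply sum_le_sum_of_subset_of_nonneg
              · intro k hk
                rw [mem_Ico] at hk
                rw [mem_range]; exact hk.2
              · intro k _ _
                have := g0 k
                positivity
    have hD : ε * (1 - 1 / L) ≤ Dp (fun k => w k + g k) x := by
      have h1 : Dp (fun k => w k + g k) x = Dp w x + ∑ k ∈ range (x + 1), (1 - (k : ℝ)) * g k := by
        unfold Dp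
        rw [← sum_add_distrib]
        apply sum_congr rfl
        intro k _
        ring
      rw [h1]
      have h2 := eps_le_Dp w K h.law.nonneg h.law.supp x hx
      rw [← hεdef] at h2
      have h3 : -(ε / L) ≤ ∑ k ∈ range (x + 1), (1 - (k : ℝ)) * g k := by
        have h4 := g5 (x + 1)
        have h5 : -∑ k ∈ range (x + 1), (k : ℝ) * g k ≤ ∑ k ∈ range (x + 1), (1 - (k : ℝ)) * g k := by
          rw [← sum_neg_distrib]
          apply sum_le_sum
          intro k _
          have := g0 k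
          linarith
        linarith
      have h6 : ε * (1 - 1 / L) = ε + -(ε / L) := by ring
      rw [h6]
      exact add_le_add h2 h3
    have h7 : ε / θ ≤ 10 / 9 * (x * (ε / L)) := by
      rw [div_le_iff₀ hθ]
      have h8 : 9 / 10 * (L : ℝ) ≤ θ * x := by
        refine htau.trans ?_
        gcongr
      have h9 : 10 / 9 * (x * (ε / L)) * θ = ε * (10 / 9 * (θ * x) / L) := by ring
      rw [h9]
      have h10 : 1 ≤ 10 / 9 * (θ * x) / L := by
        rw [le_div_iff₀ hL0]; linarith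
      nlinarith
    calc Vp (fun k => w k + g k) x ≤ 7 / 500 * (ε / θ) + x * (ε / L) := hV
      _ ≤ 7 / 500 * (10 / 9 * (x * (ε / L))) + x * (ε / L) := by gcongr
      _ ≤ 1 / 500 * x * (ε * (1 - 1 / L)) := by
          have h11 : 7 / 500 * (10 / 9 * (x * (ε / L))) + x * (ε / L) = x * ε * ((7 / 450 + 1) * (1 / L)) := by ring
          have h12 : 1 / 500 * x * (ε * (1 - 1 / L)) = x * ε * (1 / 500 * (1 - 1 / L)) := by ring
          rw [h11, h12]
          have h13 : (1 : ℝ) / L ≤ 1 / 1000 := by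
            apply one_div_le_one_div_of_le (by norm_num) hL
          have : (0 : ℝ) ≤ x * ε := by positivity
          apply mul_le_mul_of_nonneg_left _ this
          linarith
      _ ≤ 1 / 500 * x * Dp (fun k => w k + g k) x := by gcongr

theorem Fs_ext {w : ℕ → ℝ} {K K' : ℕ} (hs : ∀ k, K ≤ k → w k = 0) (hK : K ≤ K') (s : ℝ) :
    Fs w K' s = Fs w K s := by
  unfold Fs
  symm
  apply sum_subset
  · intro k hk
    rw [mem_range] at hk ⊢; omega
  · intro k _ hk
    rw [mem_range] at hk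
    rw [hs k (by omega)]; ring

theorem ms_ext {w : ℕ → ℝ} {K K' : ℕ} (hs : ∀ k, K ≤ k → w k = 0) (hK : K ≤ K') (s : ℝ) :
    ms w K' s = ms w K s := by
  unfold ms
  symm
  apply sum_subset
  · intro k hk
    rw [mem_range] at hk ⊢; omega
  · intro k _ hk
    rw [mem_range] at hk
    rw [hs k (by omega)]; ring

theorem Fs_add_fun (w g : ℕ → ℝ) (K : ℕ) (s : ℝ) :
    Fs (fun k => w k + g k) K s = Fs w K s + Fs g K s := by
  unfold Fs
  rw [← sum_add_distrib]
  apply sum_congr rfl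
  intro k _
  ring

theorem ms_add_fun (w g : ℕ → ℝ) (K : ℕ) (s : ℝ) :
    ms (fun k => w k + g k) K s = ms w K s + ms g K s := by
  unfold ms
  rw [← sum_add_distrib]
  apply sum_congr rfl
  intro k _
  ring

/-- `F` of the sum is at least `(1 - 1/L) ε` and at least `(1-1/L) F` of `w` -/
theorem Inv.Fs_add_ge (h : Inv w K θ e L) (s : ℝ) (hs : 0 ≤ s) :
    (1 - 1 / (L : ℝ)) * Fs w K s ≤ Fs (fun k => w k + phCol w K θ e L k) (nextK w K e L) s := by
  obtain ⟨g0, g1, g2, g3, g4, g5, g6⟩ := Inv.col_facts w K θ e L h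
  have hε := h.eps_pos
  have hL : (1000 : ℝ) ≤ L := by exact_mod_cast h.L_ge
  have hL0 : (0 : ℝ) < L := by linarith
  set g := phCol w K θ e L with hg
  rw [Fs_add_fun, Fs_ext h.law.supp (le_nextK w K e L)]
  have h1 : epsL w K ≤ Fs w K s := by
    rw [← Fs_zero]
    exact Fs_mono w K h.law.nonneg 0 s hs
  have h2 : -(epsL w K / L) ≤ Fs g (nextK w K e L) s := by
    have h4 := g5 (nextK w K e L)
    have h5 : -∑ k ∈ range (nextK w K e L), (k : ℝ) * g k ≤ Fs g (nextK w K e L) s := by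
      unfold Fs
      rw [← sum_neg_distrib]
      apply sum_le_sum
      intro k _
      have hgk := g0 k
      rcases Nat.eq_zero_or_pos k with hk | hk
      · subst hk
        have : (0 : ℝ) < Real.exp (-s * ((0 : ℕ) - 1)) := Real.exp_pos _
        push_cast
        push_cast at this
        have h7 : 0 ≤ g 0 * Real.exp (-s * (0 - 1)) := by positivity
        linarith
      · have hk1 : (1 : ℝ) ≤ k := by exact_mod_cast hk
        have h6 : Real.exp (-s * ((k : ℝ) - 1)) ≤ 1 := by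
          rw [Real.exp_le_one_iff]
          nlinarith
        have h7 : 0 ≤ ((k : ℝ) - 1) * g k := by
          apply mul_nonneg (by linarith) hgk
        have h8 : ((k : ℝ) - 1) * g k * Real.exp (-s * ((k : ℝ) - 1)) ≤ ((k : ℝ) - 1) * g k * 1 :=
          mul_le_mul_of_nonneg_left h6 h7
        nlinarith
    linarith
  have h3 : epsL w K / L ≤ Fs w K s / L := by gcongr
  have h4 : (1 - 1 / (L : ℝ)) * Fs w K s = Fs w K s - Fs w K s / L := by ring
  rw [h4]
  linarith

/-- the total mass after the tilt -/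
theorem Inv.ms_bounds (h : Inv w K θ e L) (s : ℝ) (hs : 0 ≤ s) (hs1 : s ≤ 1 / 1000) :
    1 ≤ ms (fun k => w k + phCol w K θ e L k) (nextK w K e L) s ∧
    ms (fun k => w k + phCol w K θ e L k) (nextK w K e L) s ≤
      1 + 1 / (8 * L * 2 ^ (e + L)) + 2 * s := by
  obtain ⟨g0, g1, g2, g3, g4, g5, g6⟩ := Inv.col_facts w K θ e L h
  have hε := h.eps_pos
  have hL : (1000 : ℝ) ≤ L := by exact_mod_cast h.L_ge
  have hL0 : (0 : ℝ) < L := by linarith
  set g := phCol w K θ e L with hg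
  have hms0 : ∀ (u : ℕ → ℝ) (J : ℕ), ms u J 0 = ∑ k ∈ range J, u k := by
    intro u J
    unfold ms
    apply sum_congr rfl
    intro k _
    simp
  have hw1 : ms w (nextK w K e L) 0 = 1 := by
    rw [ms_ext h.law.supp (le_nextK w K e L), hms0, h.law.one]
  have hnn : ∀ k, 0 ≤ w k + g k := fun k => add_nonneg (h.law.nonneg k) (g0 k)
  constructor
  · have h1 := ms_ge (fun k => w k + g k) (nextK w K e L) hnn 0 s
    have h2 := Inv.Fs_add_ge w K θ e L h 0 le_rfl
    rw [Fs_zero] at h2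
    have h3 : (0 : ℝ) ≤ 1 - 1 / (L : ℝ) := by
      have : (1 : ℝ) / L ≤ 1 / 1000 := one_div_le_one_div_of_le (by norm_num) hL
      linarith
    have h4 : 0 ≤ Fs (fun k => w k + g k) (nextK w K e L) 0 := le_trans (by positivity) h2
    have h5 : 0 ≤ ms g (nextK w K e L) 0 := by
      rw [hms0]; exact sum_nonneg (fun k _ => g0 k)
    rw [ms_add_fun, hw1] at h1
    have h6 : 0 ≤ (s - 0) * Fs (fun k => w k + g k) (nextK w K e L) 0 := by
      apply mul_nonneg _ h4
      linarith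
    linarith
  · have hexp : Real.exp s ≤ 1 + 2 * s := by
      have h1 := Real.exp_bound_div_one_sub_of_interval hs (by linarith : s < 1)
      refine h1.trans ?_
      rw [div_le_iff₀ (by linarith)]
      nlinarith
    have h1 : ms (fun k => w k + g k) (nextK w K e L) s ≤
        ∑ k ∈ range (nextK w K e L), ((w k + g k) + if k = 0 then (w 0 + g 0) * (2 * s) else 0) := by
      unfold ms
      apply sum_le_sum
      intro k _
      have hk0 := hnn k
      rcases Nat.eq_zero_or_pos k with hk | hk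
      · subst hk
        simp only [if_true]
        push_cast
        have : Real.exp (-s * (0 - 1)) ≤ 1 + 2 * s := by
          rw [show -s * (0 - 1) = s by ring]; exact hexp
        calc (w 0 + g 0) * Real.exp (-s * (0 - 1)) ≤ (w 0 + g 0) * (1 + 2 * s) := by gcongr
          _ = w 0 + g 0 + (w 0 + g 0) * (2 * s) := by ring
      · rw [if_neg (by omega), add_zero]
        have hk1 : (1 : ℝ) ≤ k := by exact_mod_cast hk
        have h6 : Real.exp (-s * ((k : ℝ) - 1)) ≤ 1 := by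
          rw [Real.exp_le_one_iff]
          nlinarith
        calc (w k + g k) * Real.exp (-s * ((k : ℝ) - 1)) ≤ (w k + g k) * 1 := by gcongr
          _ = w k + g k := mul_one _
    refine h1.trans ?_
    rw [sum_add_distrib, sum_add_distrib]
    have h2 : ∑ k ∈ range (nextK w K e L), w k = 1 := by rw [← hms0, hw1]
    rw [h2]
    have h3 := g4 (nextK w K e L)
    have hpos : 0 < nextK w K e L := lt_of_lt_of_le (Nat.succ_pos _) (le_max_right _ _)
    have h4 : (∑ k ∈ range (nextK w K e L), if k = 0 then (w 0 + g 0) * (2 * s) else 0) = (w 0 + g 0) * (2 * s) := by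
      rw [sum_ite_eq' (range (nextK w K e L)) 0 (fun _ => (w 0 + g 0) * (2 * s))]
      rw [if_pos (mem_range.mpr hpos)]
    rw [h4]
    have h5 : g 0 = 0 := by
      apply g3
      have : 0 ≤ epsL w K * 2 ^ e := by positivity
      exact_mod_cast this
    rw [h5, add_zero]
    have h6 := h.w_le_one 0
    have h7 : w 0 * (2 * s) ≤ 2 * s := by nlinarith
    linarith

/-- tilting keeps `Reg` (general) -/
theorem tilt_reg (hw : ∀ k, 0 ≤ w k) (hR : Reg w) (s : ℝ) (hs : 0 ≤ s) (hm : 0 < ms w K s) :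
    Reg (tilt w K s) := by
  intro x hx
  have hV : Vp (tilt w K s) x * ms w K s ≤ Vp w x := by
    unfold Vp
    rw [sum_mul]
    apply sum_le_sum
    intro k hk
    rw [mem_Ico] at hk
    have h2 : (2 : ℝ) ≤ k := by exact_mod_cast hk.1
    have hwk := hw k
    have h6 : Real.exp (-s * ((k : ℝ) - 1)) ≤ 1 := by
      rw [Real.exp_le_one_iff]
      nlinarith
    calc ((k : ℝ) - 1) ^ 2 * tilt w K s k * ms w K s =
        ((k : ℝ) - 1) ^ 2 * (w k * Real.exp (-s * ((k : ℝ) - 1))) := by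
          unfold tilt; field_simp
      _ ≤ ((k : ℝ) - 1) ^ 2 * (w k * 1) := by gcongr
      _ = _ := by rw [mul_one]
  have hD : Dp w x ≤ Dp (tilt w K s) x * ms w K s := by
    unfold Dp
    rw [sum_mul]
    apply sum_le_sum
    intro k _
    have hwk := hw k
    have h1 : (1 - (k : ℝ)) * tilt w K s k * ms w K s =
        (1 - (k : ℝ)) * (w k * Real.exp (-s * ((k : ℝ) - 1))) := by
      unfold tilt; field_simp
    rw [h1]
    rcases Nat.eq_zero_or_pos k with hk | hk
    · subst hk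
      push_cast
      have : 1 ≤ Real.exp (-s * (0 - 1)) := by
        rw [Real.one_le_exp_iff]; linarith
      nlinarith
    · have hk1 : (1 : ℝ) ≤ k := by exact_mod_cast hk
      have h6 : Real.exp (-s * ((k : ℝ) - 1)) ≤ 1 := by
        rw [Real.exp_le_one_iff]
        nlinarith
      have h7 : w k * Real.exp (-s * ((k : ℝ) - 1)) ≤ w k := by nlinarith
      nlinarith
  have h1 := hR x hx
  have h2 : Vp (tilt w K s) x * ms w K s ≤ (1 / 500 * x * Dp (tilt w K s) x) * ms w K s := by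
    calc Vp (tilt w K s) x * ms w K s ≤ Vp w x := hV
      _ ≤ 1 / 500 * x * Dp w x := h1
      _ ≤ 1 / 500 * x * (Dp (tilt w K s) x * ms w K s) := by gcongr
      _ = (1 / 500 * x * Dp (tilt w K s) x) * ms w K s := by ring
  exact le_of_mul_le_mul_right h2 hm

theorem tilt_law (hw : ∀ k, 0 ≤ w k) (hs : ∀ k, K ≤ k → w k = 0) (s : ℝ) (hm : 0 < ms w K s) :
    IsLaw (tilt w K s) K := by
  refine ⟨?_, ?_, ?_⟩
  · intro k
    have := hw k
    unfold tilt
    positivity
  · intro k hk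
    unfold tilt
    rw [hs k hk]; simp
  · unfold tilt
    rw [← sum_div]
    exact div_self hm.ne'

/-- flatness of `F` up to a few times the last tilt -/
theorem Inv.Fs_flat (h : Inv w K θ e L) (s : ℝ) (hs : 0 ≤ s) (hs1 : s ≤ 8 * θ) :
    Fs w K s ≤ (1 + 3 / 200 * (s / θ)) * epsL w K := by
  have hε := h.eps_pos
  have hθ := h.θ_pos
  have hts := Inv.theta_small w K θ e L h
  have hv2 := h.v2
  have he : (10 ^ 15 : ℝ) ≤ e := by exact_mod_cast h.e_ge
  have hK : 1 ≤ K := by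
    by_contra hK
    have : K = 0 := by omega
    have h1 := h.law.one
    rw [this] at h1
    simp at h1
  have h1 := Fs_add_le w K h.law.nonneg hK 0 s le_rfl hs
  rw [zero_add, Fs_zero] at h1
  have h2 := S2_zero_le w K h.law.nonneg h.law.supp 0 le_rfl
  have h3 := h.w_le_one 0
  have hw0 := h.law.nonneg 0
  have he3 : (1000 : ℝ) ≤ (e : ℝ) ^ 3 := by
    calc (1000 : ℝ) ≤ (10 ^ 15) ^ 3 := by norm_num
      _ ≤ (e : ℝ) ^ 3 := by gcongr
  have h2000 : 1000 * θ ≤ epsL w K / 1000 := le_trans (by gcongr) hts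
  have hε1 := h.eps_le_one
  have hs2 : s ≤ 1 / 1000 := by linarith
  have hexp : Real.exp s ≤ 1 + 2 * s := by
    have h1 := Real.exp_bound_div_one_sub_of_interval hs (by linarith : s < 1)
    refine h1.trans ?_
    rw [div_le_iff₀ (by linarith)]
    nlinarith
  have h4 : w 0 * (Real.exp s - Real.exp 0) ≤ 2 * s := by
    rw [Real.exp_zero]
    have : 0 ≤ Real.exp s - 1 := by
      have := Real.add_one_le_exp s
      linarith
    nlinarith
  have h5 : s * S2 w K 0 ≤ s * (7 / 500 * (epsL w K / θ)) := by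
    gcongr
    exact h2.trans hv2
  have h6 : 2 * s ≤ 1 / 1000 * (s / θ) * epsL w K := by
    have h7 : 1 / 1000 * (s / θ) * epsL w K = s * (epsL w K / (1000 * θ)) := by field_simp
    rw [h7]
    have h8 : 2 ≤ epsL w K / (1000 * θ) := by
      rw [le_div_iff₀ (by positivity)]
      linarith
    nlinarith
  calc Fs w K s ≤ epsL w K + s * S2 w K 0 + w 0 * (Real.exp s - Real.exp 0) := h1
    _ ≤ epsL w K + s * (7 / 500 * (epsL w K / θ)) + 1 / 1000 * (s / θ) * epsL w K := by linarith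
    _ = (1 + 3 / 200 * (s / θ)) * epsL w K := by ring

end A2

end HW
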