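import Pool.Agent.Helper24.HW.N0
import Pool.Agent.Helper1.HW.A1b
import Pool.Agent.Helper14.HW.N1b

/-! Block N4 of MP_074879_pr: weights of trees containing a later colour. -/

open Finset

namespace HW

namespace Sys
variable {f : ℝ → ℝ} (S : Sys f)

theorem n4_L (j : ℕ) : (1000 : ℝ) ≤ S.L j := by exact_mod_cast (S.inv j).L_ge

theorem n4_e (j i : ℕ) (h : j ≤ i) : S.e j + 1000 * (i - j) ≤ S.e i := by
  induction i, h using Nat.le_induction with
  | base => simp
  | succ i hi ih =>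
    have h1 := S.e_step i
    have h2 := (S.inv i).L_ge
    have h3 : i + 1 - j = (i - j) + 1 := by omega
    have h4 : 1000 * (i - j + 1) = 1000 * (i - j) + 1000 := by ring
    rw [h3, h4, h1]
    linarith

theorem n4_pow (j i : ℕ) (h : j ≤ i) : (2 : ℝ) ^ S.e j * 2 ^ (1000 * (i - j)) ≤ 2 ^ S.e i := by
  rw [← pow_add]
  exact pow_le_pow_right₀ (by norm_num) (S.n4_e j i h)

theorem n4_theta (i : ℕ) : S.θ i ≤ (Real.sqrt (2 ^ S.e i))⁻¹ := by
  have h1 := (S.inv i).θ_sq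
  have h2 := (S.inv i).θ_pos
  have hN : (0 : ℝ) < 2 ^ S.e i := by positivity
  have hs : 0 < Real.sqrt (2 ^ S.e i) := Real.sqrt_pos.mpr hN
  rw [← one_div, le_div_iff₀ hs]
  have h3 : (S.θ i * Real.sqrt (2 ^ S.e i)) ^ 2 ≤ 1 := by
    rw [mul_pow, Real.sq_sqrt hN.le]; exact h1
  have h4 : 0 ≤ S.θ i * Real.sqrt (2 ^ S.e i) := by positivity
  nlinarith

theorem n4_r (i : ℕ) : 2 * (Real.sqrt (2 ^ S.e (i + 1)))⁻¹ ≤ (Real.sqrt (2 ^ S.e i))⁻¹ := by
  have hN : (0 : ℝ) < 2 ^ S.e i := by positivity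
  have hs : 0 < Real.sqrt (2 ^ S.e i) := Real.sqrt_pos.mpr hN
  have h1 : 2 * Real.sqrt (2 ^ S.e i) ≤ Real.sqrt (2 ^ S.e (i + 1)) := by
    have h2 : Real.sqrt (4 * 2 ^ S.e i) = 2 * Real.sqrt (2 ^ S.e i) := by
      rw [Real.sqrt_mul (by norm_num : (0 : ℝ) ≤ 4)]
      congr 1
      rw [show (4 : ℝ) = 2 ^ 2 by norm_num]
      exact Real.sqrt_sq (by norm_num)
    rw [← h2]
    apply Real.sqrt_le_sqrt
    have h3 : (4 : ℝ) * 2 ^ S.e i = 2 ^ (S.e i + 2) := by rw [pow_add]; ring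
    rw [h3]
    apply pow_le_pow_right₀ (by norm_num)
    have := S.e_step i
    have := (S.inv i).L_ge
    omega
  rw [← div_eq_mul_inv, div_le_iff₀ (by linarith)]
  calc (2 : ℝ) = (Real.sqrt (2 ^ S.e i))⁻¹ * (2 * Real.sqrt (2 ^ S.e i)) := by field_simp
    _ ≤ _ := by gcongr

theorem n4_sum_theta (j m : ℕ) (h : j ≤ m) :
    2 ^ S.e j * (∑ i ∈ Ico j (m + 1), S.θ i) ^ 2 ≤ 4 := by
  have h1 : ∑ i ∈ Ico j (m + 1), S.θ i ≤
      2 * (Real.sqrt (2 ^ S.e j))⁻¹ - (Real.sqrt (2 ^ S.e m))⁻¹ := by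
    induction m, h using Nat.le_induction with
    | base =>
      rw [Nat.Ico_succ_singleton, sum_singleton]
      have := S.n4_theta j
      linarith
    | succ m hm ih =>
      rw [sum_Ico_succ_top (by omega)]
      have h2 := S.n4_theta (m + 1)
      have h3 := S.n4_r m
      linarith
  have hN : (0 : ℝ) < 2 ^ S.e j := by positivity
  have hs : 0 < Real.sqrt (2 ^ S.e j) := Real.sqrt_pos.mpr hN
  have hm : (0 : ℝ) ≤ (Real.sqrt (2 ^ S.e m))⁻¹ := by positivity
  have h0 : 0 ≤ ∑ i ∈ Ico j (m + 1), S.θ i := sum_nonneg (fun i _ => (S.inv i).θ_pos.le)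
  have h2 : ∑ i ∈ Ico j (m + 1), S.θ i ≤ 2 * (Real.sqrt (2 ^ S.e j))⁻¹ := by linarith
  calc 2 ^ S.e j * (∑ i ∈ Ico j (m + 1), S.θ i) ^ 2 ≤
      2 ^ S.e j * (2 * (Real.sqrt (2 ^ S.e j))⁻¹) ^ 2 := by gcongr
    _ = 4 * (2 ^ S.e j * ((Real.sqrt (2 ^ S.e j)) ^ 2)⁻¹) := by ring
    _ = 4 := by rw [Real.sq_sqrt hN.le, mul_inv_cancel₀ hN.ne', mul_one]

theorem n4_ss_sub (j m : ℕ) (h : j ≤ m) :
    S.ss m - S.ss j = ∑ i ∈ Ico (j + 1) (m + 1), S.θ i := by
  induction m, h using Nat.le_induction with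
  | base => simp
  | succ m hm ih =>
    rw [sum_Ico_succ_top (by omega), ← ih]
    simp only [ss, sum_range_succ]
    ring

theorem n4_ss_mono (j m : ℕ) (h : j ≤ m) : S.ss j ≤ S.ss m := by
  have h1 := S.n4_ss_sub j m h
  have h2 : 0 ≤ ∑ i ∈ Ico (j + 1) (m + 1), S.θ i := sum_nonneg (fun i _ => (S.inv i).θ_pos.le)
  linarith

theorem n4_theta_le_ss (j m : ℕ) (h : j + 1 ≤ m) : S.θ m ≤ S.ss m - S.ss j := by
  rw [S.n4_ss_sub j m (by omega)]
  exact single_le_sum (f := S.θ) (fun i _ => (S.inv i).θ_pos.le) (mem_Ico.mpr ⟨h, by omega⟩)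

theorem n4_invpow (j m : ℕ) (h : j ≤ m) :
    ∑ l ∈ Ico j (m + 1), (1 : ℝ) / 2 ^ S.e (l + 1) ≤ 2 / 2 ^ S.e (j + 1) := by
  have key : ∑ l ∈ Ico j (m + 1), (1 : ℝ) / 2 ^ S.e (l + 1) ≤
      2 / 2 ^ S.e (j + 1) - 1 / 2 ^ S.e (m + 1) := by
    induction m, h using Nat.le_induction with
    | base =>
      rw [Nat.Ico_succ_singleton, sum_singleton]
      have : (2 : ℝ) / 2 ^ S.e (j + 1) = 1 / 2 ^ S.e (j + 1) + 1 / 2 ^ S.e (j + 1) := by ring
      linarith
    | succ m hm ih =>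
      rw [sum_Ico_succ_top (by omega)]
      have h3 : 2 * ((1 : ℝ) / 2 ^ S.e (m + 1 + 1)) ≤ 1 / 2 ^ S.e (m + 1) := by
        have h4 := S.n4_pow (m + 1) (m + 1 + 1) (by omega)
        rw [mul_one_div, div_le_div_iff₀ (by positivity) (by positivity), one_mul]
        refine le_trans ?_ h4
        have h5 : (2 : ℝ) ≤ 2 ^ (1000 * (m + 1 + 1 - (m + 1))) := by
          calc (2 : ℝ) = 2 ^ 1 := by norm_num
            _ ≤ _ := by
              apply pow_le_pow_right₀ (by norm_num)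
              omega
        have h6 : (0 : ℝ) < 2 ^ S.e (m + 1) := by positivity
        nlinarith
      linarith
  have : (0 : ℝ) ≤ 1 / 2 ^ S.e (m + 1) := by positivity
  linarith

theorem n4_colQ (l K' : ℕ) : ∑ k ∈ range K', S.g l k ≤ 1 / 8000 * (1 / 2 ^ S.e (l + 1)) := by
  obtain ⟨-, -, -, -, g4, -, -⟩ := Inv.col_facts _ _ _ _ _ (S.inv l)
  refine (g4 K').trans ?_
  rw [S.e_step l, ← one_div_mul_one_div]
  have h1 : (1 : ℝ) / (8 * S.L l) ≤ 1 / 8000 := by
    apply one_div_le_one_div_of_le (by norm_num)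
    have := S.n4_L l
    linarith
  gcongr

theorem n4_wA (j m k : ℕ) (h : j ≤ m) :
    S.wA (m + 1) k = S.wA j k + ∑ l ∈ Ico j (m + 1), S.colA l k := by
  unfold wA
  rw [range_eq_Ico, range_eq_Ico, add_assoc]
  congr 1
  exact (sum_Ico_consecutive (fun i => S.colA i k) (Nat.zero_le j) (by omega)).symm

theorem n4_g_nonneg (l k : ℕ) : 0 ≤ S.g l k := (Inv.col_facts _ _ _ _ _ (S.inv l)).1 k

theorem n4_g_zero (l : ℕ) : S.g l 0 = 0 := by
  apply (Inv.col_facts _ _ _ _ _ (S.inv l)).2.2.2.1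
  have := (S.inv l).eps_pos
  have h : (0 : ℝ) ≤ epsL (S.W l) (S.K l) * 2 ^ S.e l := by positivity
  exact_mod_cast h

theorem n4_colA_nonneg (l k : ℕ) : 0 ≤ S.colA l k := by
  have h1 := (S.cc_bounds l).1
  have h2 := S.n4_g_nonneg l k
  unfold colA
  have : 0 < S.cc l := by linarith
  positivity

theorem n4_wA_nonneg (j k : ℕ) : 0 ≤ S.wA j k := by
  unfold wA
  apply add_nonneg
  · exact (S.inv 0).law.nonneg k
  · exact sum_nonneg (fun l _ => S.n4_colA_nonneg l k)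

theorem n4_b_pos (j : ℕ) : 0 < S.b j := by
  have := (S.inv j).eps_pos
  unfold b ε
  positivity

theorem n4_tau (j : ℕ) : 900 ≤ S.τ j := by
  have h1 := (S.inv j).tau
  have h2 := S.n4_L j
  unfold τ b ε
  linarith

/-- pointwise bound of a tilted colour -/
theorem n4_sup (m k : ℕ) (x : ℝ) (hx : 3 * S.θ m ≤ x) :
    Real.exp (-x * ((k : ℝ) - 1)) * S.g m k ≤
      S.q m * Real.exp (-(9 / 2 * S.τ m) - x * (S.b m - 1)) := by
  have hb := S.n4_b_pos m
  have hθ := (S.inv m).θ_pos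
  have hε := (S.inv m).eps_pos
  have hL := S.n4_L m
  have hq : 0 < S.q m := by
    unfold q qc
    have : 0 < S.ε m := hε
    positivity
  have hg : S.g m k = if S.b m < k ∧ (k : ℝ) ≤ 8 * 2 ^ S.L m * S.b m then
      S.q m * Real.exp (-soft (S.θ m) (S.b m) k) else 0 := by
    rfl
  rw [hg]
  split_ifs with hc
  · have h1 : 9 / 2 * S.τ m + x * (S.b m - 1) ≤ soft (S.θ m) (S.b m) k + x * ((k : ℝ) - 1) := by
      have h2 : 9 / 2 * S.τ m ≤ soft (S.θ m) (S.b m) k + 3 * S.θ m * ((k : ℝ) - S.b m) := by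
        unfold τ soft
        by_cases h3 : 0 ≤ 4 * S.b m - k
        · rw [max_eq_left h3]
          have h4 : S.θ m / (2 * S.b m) * (4 * S.b m - k) ^ 2 + 3 * S.θ m * ((k : ℝ) - S.b m) -
              9 / 2 * (S.θ m * S.b m) = S.θ m / (2 * S.b m) * ((k : ℝ) - S.b m) ^ 2 := by
            field_simp
            ring
          have h5 : 0 ≤ S.θ m / (2 * S.b m) * ((k : ℝ) - S.b m) ^ 2 := by positivity
          linarith
        · push Not at h3
          rw [max_eq_right h3.le]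
          have : S.θ m * S.b m * 3 ≤ S.θ m * ((k : ℝ) - S.b m) := by
            rw [mul_assoc]
            gcongr
            linarith
          have h6 : 0 < S.θ m * S.b m := by positivity
          nlinarith
      have h7 : 3 * S.θ m * ((k : ℝ) - S.b m) ≤ x * ((k : ℝ) - S.b m) := by
        apply mul_le_mul_of_nonneg_right hx
        linarith [hc.1]
      nlinarith
    calc Real.exp (-x * ((k : ℝ) - 1)) * (S.q m * Real.exp (-soft (S.θ m) (S.b m) k))
        = S.q m * Real.exp (-x * ((k : ℝ) - 1) + -soft (S.θ m) (S.b m) k) := by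
          rw [Real.exp_add]; ring
      _ ≤ S.q m * Real.exp (-(9 / 2 * S.τ m) - x * (S.b m - 1)) := by
          gcongr
          linarith
  · rw [mul_zero]; positivity

theorem tup_gen (j m n : ℕ) (hm : j + 1 ≤ m) (hn0 : 1 ≤ n) (v : ℝ)
    (hv : S.ss m - S.ss j + 3 * S.θ m ≤ v) :
    S.nu j n * TM n (S.colA m) (S.wA (m + 1)) (fun _ => True) ≤
      2 * S.q m * Real.exp (-(9 / 2 * S.τ m) - (v - (S.ss m - S.ss j)) * (S.b m - 1) +
        n * (v * Fs (S.W j) (S.K j) v + 1 / 2000 * (1 / 2 ^ S.e (j + 1)))) := by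
  classical
  have hccj := S.cc_bounds j
  have hccm := S.cc_bounds m
  have hcj : 0 < S.cc j := by linarith
  have hcm : 0 < S.cc m := by linarith
  have hθ := (S.inv m).θ_pos
  have hssm := S.n4_ss_mono j m (by omega)
  have hv0 : 0 ≤ v := by linarith
  have hq : 0 < S.q m := by
    unfold q qc
    have : 0 < S.ε m := (S.inv m).eps_pos
    have := S.n4_b_pos m
    have := S.n4_L m
    positivity
  set Γ : ℝ := 2 * S.q m * Real.exp (-(9 / 2 * S.τ m) - (v - (S.ss m - S.ss j)) * (S.b m - 1)) with hΓ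
  set a' : ℕ → ℝ := fun k => (S.cc j)⁻¹ * Real.exp (-(S.ss j + v) * ((k : ℝ) - 1)) * S.colA m k with ha'
  set b' : ℕ → ℝ := fun k => (S.cc j)⁻¹ * Real.exp (-(S.ss j + v) * ((k : ℝ) - 1)) * S.wA (m + 1) k with hb'
  have hscale := TM_scale n (S.colA m) (S.wA (m + 1)) (S.cc j)⁻¹ (S.ss j + v) (fun _ => True)
  have hnu : S.nu j n * TM n (S.colA m) (S.wA (m + 1)) (fun _ => True) =
      Real.exp (-v) * TM n a' b' (fun _ => True) := by
    rw [ha', hb', hscale, nu, Real.exp_add]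
    have h1 : Real.exp (-v) * Real.exp v = 1 := by rw [← Real.exp_add]; simp
    calc (S.cc j)⁻¹ ^ n * Real.exp (S.ss j) * TM n (S.colA m) (S.wA (m + 1)) (fun _ => True) =
        (S.cc j)⁻¹ ^ n * Real.exp (S.ss j) * TM n (S.colA m) (S.wA (m + 1)) (fun _ => True) *
          (Real.exp (-v) * Real.exp v) := by rw [h1, mul_one]
      _ = _ := by ring
  have ha0 : ∀ k, 0 ≤ a' k := by
    intro k
    have := S.n4_colA_nonneg m k
    simp only [ha']
    positivity
  have hb0 : ∀ k, 0 ≤ b' k := by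
    intro k
    have := S.n4_wA_nonneg (m + 1) k
    simp only [hb']
    positivity
  have haΓ : ∀ k, a' k ≤ Γ := by
    intro k
    have h1 : a' k = ((S.cc j)⁻¹ * S.cc m) *
        (Real.exp (-(v - (S.ss m - S.ss j)) * ((k : ℝ) - 1)) * S.g m k) := by
      simp only [ha', colA]
      rw [show -(v - (S.ss m - S.ss j)) * ((k : ℝ) - 1) = -(S.ss j + v) * ((k : ℝ) - 1) +
        S.ss m * ((k : ℝ) - 1) by ring, Real.exp_add]
      ring
    rw [h1]
    have h2 : (S.cc j)⁻¹ * S.cc m ≤ 2 := by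
      have : (S.cc j)⁻¹ ≤ 1 := inv_le_one_of_one_le₀ hccj.1
      calc (S.cc j)⁻¹ * S.cc m ≤ 1 * 2 := by
            apply mul_le_mul this hccm.2 hcm.le (by norm_num)
        _ = 2 := by norm_num
    have h3 := S.n4_sup m k (v - (S.ss m - S.ss j)) (by linarith)
    have h4 : 0 ≤ Real.exp (-(v - (S.ss m - S.ss j)) * ((k : ℝ) - 1)) * S.g m k := by
      have := S.n4_g_nonneg m k
      positivity
    calc _ ≤ 2 * (S.q m * Real.exp (-(9 / 2 * S.τ m) - (v - (S.ss m - S.ss j)) * (S.b m - 1))) :=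
          mul_le_mul h2 h3 h4 (by norm_num)
      _ = Γ := by rw [hΓ]; ring
  set K' := max n (S.K j) with hK'
  have hsup := TM_le_sup n K' hn0 (le_max_left _ _) a' b' ha0 hb0 Γ haΓ (fun _ => True)
  have hsum : ∑ k ∈ range K', b' k ≤ 1 + (v * Fs (S.W j) (S.K j) v + 1 / 2000 * (1 / 2 ^ S.e (j + 1))) := by
    have h1 : ∀ k, b' k = S.W j k * Real.exp (-v * ((k : ℝ) - 1)) +
        ∑ l ∈ Ico j (m + 1), ((S.cc j)⁻¹ * S.cc l) *
          (Real.exp (-(v - (S.ss l - S.ss j)) * ((k : ℝ) - 1)) * S.g l k) := by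
      intro k
      simp only [hb']
      rw [S.n4_wA j m k (by omega), mul_add, S.W_eq j k, mul_sum]
      congr 1
      · rw [show -(S.ss j + v) * ((k : ℝ) - 1) = -S.ss j * ((k : ℝ) - 1) + -v * ((k : ℝ) - 1) by ring,
          Real.exp_add]
        ring
      · apply sum_congr rfl
        intro l _
        simp only [colA]
        rw [show -(v - (S.ss l - S.ss j)) * ((k : ℝ) - 1) = -(S.ss j + v) * ((k : ℝ) - 1) +
          S.ss l * ((k : ℝ) - 1) by ring, Real.exp_add]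
        ring
    rw [sum_congr rfl (fun k _ => h1 k), sum_add_distrib, sum_comm]
    have h2 : ∑ k ∈ range K', S.W j k * Real.exp (-v * ((k : ℝ) - 1)) ≤ 1 + v * Fs (S.W j) (S.K j) v := by
      have h3 : ∑ k ∈ range K', S.W j k * Real.exp (-v * ((k : ℝ) - 1)) = ms (S.W j) (S.K j) v := by
        rw [← ms_ext (S.inv j).law.supp (le_max_right n (S.K j)) v]
        rfl
      rw [h3]
      have h4 := ms_ge (S.W j) (S.K j) (S.inv j).law.nonneg v 0
      have h5 : ms (S.W j) (S.K j) 0 = 1 := by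
        rw [← (S.inv j).law.one]
        unfold ms
        apply sum_congr rfl
        intro k _
        simp
      rw [h5] at h4
      linarith
    have h6 : ∑ l ∈ Ico j (m + 1), ∑ k ∈ range K', ((S.cc j)⁻¹ * S.cc l) *
          (Real.exp (-(v - (S.ss l - S.ss j)) * ((k : ℝ) - 1)) * S.g l k) ≤
        1 / 2000 * (1 / 2 ^ S.e (j + 1)) := by
      calc _ ≤ ∑ l ∈ Ico j (m + 1), 2 * (1 / 8000 * ((1 : ℝ) / 2 ^ S.e (l + 1))) := by
            apply sum_le_sum
            intro l hl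
            rw [mem_Ico] at hl
            calc _ ≤ ∑ k ∈ range K', 2 * S.g l k := by
                  apply sum_le_sum
                  intro k _
                  have hccl := S.cc_bounds l
                  have hcl : 0 < S.cc l := by linarith
                  have h7 : (S.cc j)⁻¹ * S.cc l ≤ 2 := by
                    have : (S.cc j)⁻¹ ≤ 1 := inv_le_one_of_one_le₀ hccj.1
                    calc (S.cc j)⁻¹ * S.cc l ≤ 1 * 2 := by
                          apply mul_le_mul this hccl.2 hcl.le (by norm_num)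
                      _ = 2 := by norm_num
                  have hgn := S.n4_g_nonneg l k
                  rcases Nat.eq_zero_or_pos k with hk | hk
                  · subst hk
                    rw [S.n4_g_zero l]; simp
                  · have hk1 : (1 : ℝ) ≤ k := by exact_mod_cast hk
                    have h8 : Real.exp (-(v - (S.ss l - S.ss j)) * ((k : ℝ) - 1)) ≤ 1 := by
                      rw [Real.exp_le_one_iff]
                      have h9 := S.n4_ss_mono l m (by omega)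
                      have h10 : 0 ≤ v - (S.ss l - S.ss j) := by linarith
                      nlinarith
                    calc _ ≤ 2 * (1 * S.g l k) := by
                          apply mul_le_mul h7 _ (by positivity) (by norm_num)
                          exact mul_le_mul_of_nonneg_right h8 hgn
                      _ = 2 * S.g l k := by ring
              _ = 2 * ∑ k ∈ range K', S.g l k := by rw [mul_sum]
              _ ≤ _ := by
                have := S.n4_colQ l K'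
                linarith
        _ = 1 / 4000 * ∑ l ∈ Ico j (m + 1), (1 : ℝ) / 2 ^ S.e (l + 1) := by
            rw [mul_sum]
            apply sum_congr rfl
            intro l _
            ring
        _ ≤ 1 / 4000 * (2 / 2 ^ S.e (j + 1)) := by
            gcongr
            exact S.n4_invpow j m (by omega)
        _ = 1 / 2000 * (1 / 2 ^ S.e (j + 1)) := by ring
    linarith
  set X := v * Fs (S.W j) (S.K j) v + 1 / 2000 * (1 / 2 ^ S.e (j + 1)) with hX
  have hFnn : 0 ≤ Fs (S.W j) (S.K j) v := by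
    have h1 := Fs_mono (S.W j) (S.K j) (S.inv j).law.nonneg 0 v hv0
    rw [Fs_zero] at h1
    exact (S.inv j).eps_pos.le.trans h1
  have hXnn : 0 ≤ X := by positivity
  have hΓ0 : 0 ≤ Γ := by positivity
  rw [hnu]
  have hpow : (∑ k ∈ range K', b' k) ^ (n - 1) ≤ Real.exp (n * X) := by
    have h0 : 0 ≤ ∑ k ∈ range K', b' k := sum_nonneg (fun k _ => hb0 k)
    calc (∑ k ∈ range K', b' k) ^ (n - 1) ≤ (1 + X) ^ (n - 1) := by gcongr
      _ ≤ (1 + X) ^ n := pow_le_pow_right₀ (by linarith) (by omega)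
      _ ≤ (Real.exp X) ^ n := by
          gcongr
          linarith [Real.add_one_le_exp X]
      _ = Real.exp (n * X) := by rw [← Real.exp_nat_mul]
  have hev : Real.exp (-v) ≤ 1 := by rw [Real.exp_le_one_iff]; linarith
  have hTM0 : 0 ≤ TM n a' b' (fun _ => True) := TM_nonneg n a' b' ha0 hb0 _
  calc Real.exp (-v) * TM n a' b' (fun _ => True) ≤ 1 * TM n a' b' (fun _ => True) := by gcongr
    _ = TM n a' b' (fun _ => True) := one_mul _
    _ ≤ Γ * (∑ k ∈ range K', b' k) ^ (n - 1) := hsup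
    _ ≤ Γ * Real.exp (n * X) := by gcongr
    _ = _ := by
      rw [hΓ, mul_assoc, ← Real.exp_add]

theorem n4_num (d : ℕ) (hd : 1 ≤ d) : (1000 : ℝ) ≤ (19 / 20) ^ (d + 1) * 2 ^ (1000 * d) := by
  have h1 : (2048 : ℝ) ≤ 19 / 20 * 2 ^ 1000 := by
    have h2 : (1 : ℝ) ≤ 2 ^ 988 := one_le_pow₀ (by norm_num)
    have h3 : (2 : ℝ) ^ 1000 = 2 ^ 12 * 2 ^ 988 := by rw [← pow_add]
    rw [h3]
    generalize (2 : ℝ) ^ 988 = X at h2
    norm_num
    linarith
  have h2 : (19 / 20 : ℝ) ^ (d + 1) * 2 ^ (1000 * d) = 19 / 20 * (19 / 20 * 2 ^ 1000) ^ d := by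
    rw [pow_succ, pow_mul, mul_pow]; ring
  rw [h2]
  calc (1000 : ℝ) ≤ 19 / 20 * 2048 ^ 1 := by norm_num
    _ ≤ 19 / 20 * 2048 ^ d := by
        gcongr
        · norm_num
    _ ≤ 19 / 20 * (19 / 20 * 2 ^ 1000) ^ d := by gcongr

theorem n4_bm (j i m : ℕ) (hji : j ≤ i) (hi : i ≤ j + 1) (him : i < m) :
    1000 * (2 ^ S.e i * Fs (S.W j) (S.K j) (S.ss m - S.ss j)) ≤ S.b m := by
  have h1 := S.eps_chain j m (by omega)
  have h2 := S.n4_pow i m him.le
  have h3 := n4_num (m - i) (by omega)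
  have hF : 0 ≤ Fs (S.W j) (S.K j) (S.ss m - S.ss j) := by
    have h4 := Fs_mono (S.W j) (S.K j) (S.inv j).law.nonneg 0 (S.ss m - S.ss j)
      (by linarith [S.n4_ss_mono j m (by omega)])
    rw [Fs_zero] at h4
    exact (S.inv j).eps_pos.le.trans h4
  set F := Fs (S.W j) (S.K j) (S.ss m - S.ss j) with hFdef
  have h5 : (19 / 20 : ℝ) ^ (m - i + 1) ≤ (19 / 20) ^ (m - j) :=
    pow_le_pow_of_le_one (by norm_num) (by norm_num) (by omega)
  have h6 : (19 / 20 : ℝ) ^ (m - i + 1) * F ≤ S.ε m := le_trans (by gcongr) h1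
  have hεm : 0 ≤ S.ε m := (S.inv m).eps_pos.le
  unfold b
  calc 1000 * (2 ^ S.e i * F) ≤ ((19 / 20) ^ (m - i + 1) * 2 ^ (1000 * (m - i))) * (2 ^ S.e i * F) := by
        gcongr
    _ = ((19 / 20) ^ (m - i + 1) * F) * (2 ^ S.e i * 2 ^ (1000 * (m - i))) := by ring
    _ ≤ S.ε m * 2 ^ S.e m := by
        gcongr

theorem n4_F2 (j : ℕ) (x : ℝ) (hx : 0 < x) (hx1 : x ≤ 1 / 2000) :
    Fs (S.W j) (S.K j) (2 * x) ≤ 1014 / 1000 * Fs (S.W j) (S.K j) x + 11 / 10 * x := by
  have hK : 1 ≤ S.K j := by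
    by_contra hK
    have : S.K j = 0 := by omega
    have h1 := (S.inv j).law.one
    rw [this] at h1
    simp at h1
  have h1 := Fs_double (S.W j) (S.K j) (S.inv j).law.nonneg (S.inv j).law.supp
    (S.inv j).eps_pos.le hK (S.inv j).reg x hx hx1
  have h2 := (S.inv j).w_le_one 0
  have h3 := (S.inv j).law.nonneg 0
  have h4 : 11 / 10 * S.W j 0 * x ≤ 11 / 10 * 1 * x := by gcongr
  linarith

theorem n4_F4 (j : ℕ) (x : ℝ) (hx : 0 < x) (hx1 : x ≤ 1 / 4000) :
    Fs (S.W j) (S.K j) (4 * x) ≤ 103 / 100 * Fs (S.W j) (S.K j) x + 4 * x := by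
  have h1 := S.n4_F2 j x hx (by linarith)
  have h2 := S.n4_F2 j (2 * x) (by linarith) (by linarith)
  rw [show 2 * (2 * x) = 4 * x by ring] at h2
  have hF : 0 ≤ Fs (S.W j) (S.K j) x := by
    have h4 := Fs_mono (S.W j) (S.K j) (S.inv j).law.nonneg 0 x hx.le
    rw [Fs_zero] at h4
    exact (S.inv j).eps_pos.le.trans h4
  linarith

theorem n4_small (j : ℕ) (x : ℝ) (hx0 : 0 ≤ x) (hx : 2 ^ S.e j * x ^ 2 ≤ 4) : x ≤ 1 / 4000 := by
  have he := (S.inv j).e_ge
  have h1 : (2 : ℝ) ^ 26 ≤ 2 ^ S.e j := pow_le_pow_right₀ (by norm_num) (by omega)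
  have h2 : (2 : ℝ) ^ 26 * x ^ 2 ≤ 4 := le_trans (by gcongr) hx
  norm_num at h2
  nlinarith

/-- N4a: next colour, `n ≤ 1.3 n_{j+1}` -/
theorem tup_a (j n : ℕ) (hn0 : 1 ≤ n) (hn : 10 * n ≤ 13 * 2 ^ (S.e (j + 1))) :
    S.nu j n * TM n (S.colA (j + 1)) (S.wA (j + 2)) (fun _ => True) ≤
      3 * S.q (j + 1) * Real.exp (-(S.τ (j + 1))) := by
  have hss : S.ss (j + 1) - S.ss j = S.θ (j + 1) := by
    simp only [ss, sum_range_succ]; ring
  have hθ := (S.inv (j + 1)).θ_pos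
  have hθ2 := S.n4_sum_theta (j + 1) (j + 1) le_rfl
  rw [Nat.Ico_succ_singleton, sum_singleton] at hθ2
  have hθs := S.n4_small (j + 1) _ hθ.le hθ2
  have hsq := (S.inv (j + 1)).θ_sq
  have h1 := S.tup_gen j (j + 1) n le_rfl hn0 (4 * S.θ (j + 1)) (by rw [hss]; linarith)
  refine h1.trans ?_
  rw [hss]
  have hq : 0 < S.q (j + 1) := by
    unfold q qc
    have : 0 < S.ε (j + 1) := (S.inv (j + 1)).eps_pos
    have := S.n4_b_pos (j + 1)
    have := S.n4_L (j + 1)
    positivity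
  have hF4 := S.n4_F4 j (S.θ (j + 1)) hθ hθs
  have hchain := S.eps_chain j (j + 1) (by omega)
  rw [hss, show j + 1 - j = 1 by omega, pow_one] at hchain
  have hτ := S.n4_tau (j + 1)
  have hτdef : S.τ (j + 1) = S.θ (j + 1) * (S.ε (j + 1) * 2 ^ S.e (j + 1)) := rfl
  have hbdef : S.b (j + 1) = S.ε (j + 1) * 2 ^ S.e (j + 1) := rfl
  have hn' : (n : ℝ) ≤ 13 / 10 * 2 ^ S.e (j + 1) := by
    have : ((10 * n : ℕ) : ℝ) ≤ ((13 * 2 ^ S.e (j + 1) : ℕ) : ℝ) := by exact_mod_cast hn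
    push_cast at this
    linarith
  have hε : 0 < S.ε (j + 1) := (S.inv (j + 1)).eps_pos
  set N : ℝ := 2 ^ S.e (j + 1) with hN
  have hNpos : 0 < N := by positivity
  set t := S.θ (j + 1) with ht
  set F := Fs (S.W j) (S.K j) t with hF
  set F4 := Fs (S.W j) (S.K j) (4 * t) with hF4def
  have hF4nn : 0 ≤ F4 := by
    have h4 := Fs_mono (S.W j) (S.K j) (S.inv j).law.nonneg 0 (4 * t) (by linarith)
    rw [Fs_zero] at h4
    exact (S.inv j).eps_pos.le.trans h4
  have hA : (n : ℝ) * (4 * t * F4) ≤ 282 / 50 * S.τ (j + 1) + 21 := by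
    calc (n : ℝ) * (4 * t * F4) ≤ (13 / 10 * N) * (4 * t * (103 / 100 * (20 / 19 * S.ε (j + 1)) + 4 * t)) := by
          have h5 : F4 ≤ 103 / 100 * (20 / 19 * S.ε (j + 1)) + 4 * t := by linarith
          gcongr
      _ = 13 / 10 * 4 * (103 / 100) * (20 / 19) * (t * (S.ε (j + 1) * N)) + 208 / 10 * (t ^ 2 * N) := by ring
      _ ≤ 282 / 50 * S.τ (j + 1) + 21 := by
          rw [hτdef]
          have : 0 < t * (S.ε (j + 1) * N) := by positivity
          linarith
  have hB : (n : ℝ) * (1 / 2000 * (1 / N)) ≤ 1 := by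
    calc (n : ℝ) * (1 / 2000 * (1 / N)) ≤ (13 / 10 * N) * (1 / 2000 * (1 / N)) := by gcongr
      _ = 13 / 20000 := by field_simp; norm_num
      _ ≤ 1 := by norm_num
  have hC : -(9 / 2 * S.τ (j + 1)) - (4 * t - t) * (S.b (j + 1) - 1) +
      n * (4 * t * F4 + 1 / 2000 * (1 / N)) ≤ -S.τ (j + 1) := by
    have h6 : (4 * t - t) * (S.b (j + 1) - 1) = 3 * S.τ (j + 1) - 3 * t := by
      rw [hτdef, hbdef]; ring
    rw [h6, mul_add]
    linarith
  calc 2 * S.q (j + 1) * Real.exp (-(9 / 2 * S.τ (j + 1)) - (4 * t - t) * (S.b (j + 1) - 1) +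
      n * (4 * t * F4 + 1 / 2000 * (1 / N))) ≤ 2 * S.q (j + 1) * Real.exp (-S.τ (j + 1)) := by gcongr
    _ ≤ 3 * S.q (j + 1) * Real.exp (-S.τ (j + 1)) := by gcongr; norm_num

/-- N4b: later colours, `n ≤ 1.3 n_{j+1}` -/
theorem tup_b (j m n : ℕ) (hm : j + 2 ≤ m) (hn0 : 1 ≤ n)
    (hn : 10 * n ≤ 13 * 2 ^ (S.e (j + 1))) :
    S.nu j n * TM n (S.colA m) (S.wA (m + 1)) (fun _ => True) ≤
      3 * S.q m * Real.exp (-(S.τ m)) := by
  have hss := S.n4_ss_sub j m (by omega)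
  have hθm := S.n4_theta_le_ss j m (by omega)
  have hθ := (S.inv m).θ_pos
  have hΘ2 := S.n4_sum_theta (j + 1) m (by omega)
  rw [← hss] at hΘ2
  have hbm := S.n4_bm j (j + 1) m (by omega) le_rfl (by omega)
  have h1 := S.tup_gen j m n (by omega) hn0 (4 * (S.ss m - S.ss j)) (by linarith)
  refine h1.trans ?_
  set t := S.ss m - S.ss j with ht
  have ht0 : 0 < t := by linarith
  have hts := S.n4_small (j + 1) t ht0.le hΘ2
  have hq : 0 < S.q m := by
    unfold q qc
    have : 0 < S.ε m := (S.inv m).eps_pos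
    have := S.n4_b_pos m
    have := S.n4_L m
    positivity
  have hF4 := S.n4_F4 j t ht0 hts
  have hτ := S.n4_tau m
  have hn' : (n : ℝ) ≤ 13 / 10 * 2 ^ S.e (j + 1) := by
    have : ((10 * n : ℕ) : ℝ) ≤ ((13 * 2 ^ S.e (j + 1) : ℕ) : ℝ) := by exact_mod_cast hn
    push_cast at this
    linarith
  have hb := S.n4_b_pos m
  set N : ℝ := 2 ^ S.e (j + 1) with hN
  have hNpos : 0 < N := by positivity
  set F := Fs (S.W j) (S.K j) t with hF
  set F4 := Fs (S.W j) (S.K j) (4 * t) with hF4def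
  have hFnn : 0 ≤ F := by
    have h4 := Fs_mono (S.W j) (S.K j) (S.inv j).law.nonneg 0 t ht0.le
    rw [Fs_zero] at h4
    exact (S.inv j).eps_pos.le.trans h4
  have hF4nn : 0 ≤ F4 := by
    have h4 := Fs_mono (S.W j) (S.K j) (S.inv j).law.nonneg 0 (4 * t) (by linarith)
    rw [Fs_zero] at h4
    exact (S.inv j).eps_pos.le.trans h4
  have hA : (n : ℝ) * (4 * t * F4) ≤ t * S.b m + 84 := by
    calc (n : ℝ) * (4 * t * F4) ≤ (13 / 10 * N) * (4 * t * (103 / 100 * F + 4 * t)) := by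
          gcongr
      _ = 13 / 10 * 4 * (103 / 100) * t * (N * F) + 208 / 10 * (N * t ^ 2) := by ring
      _ ≤ 1000 * t * (N * F) + 208 / 10 * 4 := by
          gcongr
          norm_num
      _ = t * (1000 * (N * F)) + 208 / 10 * 4 := by ring
      _ ≤ t * S.b m + 84 := by
          have : t * (1000 * (N * F)) ≤ t * S.b m := by gcongr
          linarith
  have hB : (n : ℝ) * (1 / 2000 * (1 / N)) ≤ 1 := by
    calc (n : ℝ) * (1 / 2000 * (1 / N)) ≤ (13 / 10 * N) * (1 / 2000 * (1 / N)) := by gcongr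
      _ = 13 / 20000 := by field_simp; norm_num
      _ ≤ 1 := by norm_num
  have hC : -(9 / 2 * S.τ m) - (4 * t - t) * (S.b m - 1) +
      n * (4 * t * F4 + 1 / 2000 * (1 / N)) ≤ -S.τ m := by
    have h6 : (4 * t - t) * (S.b m - 1) = 3 * (t * S.b m) - 3 * t := by ring
    rw [h6, mul_add]
    have : 0 < t * S.b m := by positivity
    linarith
  calc 2 * S.q m * Real.exp (-(9 / 2 * S.τ m) - (4 * t - t) * (S.b m - 1) +
      n * (4 * t * F4 + 1 / 2000 * (1 / N))) ≤ 2 * S.q m * Real.exp (-S.τ m) := by gcongr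
    _ ≤ 3 * S.q m * Real.exp (-S.τ m) := by gcongr; norm_num

/-- N4c: all later colours, `n ≤ 5 n_j` -/
theorem tup_c (j m n : ℕ) (hm : j + 1 ≤ m) (hn0 : 1 ≤ n)
    (hn : n ≤ 5 * 2 ^ (S.e j)) :
    S.nu j n * TM n (S.colA m) (S.wA (m + 1)) (fun _ => True) ≤
      3 * S.q m * Real.exp (-(100 * S.τ j)) := by
  have hss := S.n4_ss_sub j m (by omega)
  have hθm := S.n4_theta_le_ss j m (by omega)
  have hθ := (S.inv m).θ_pos
  have hθj := (S.inv j).θ_pos
  have hΘ2 := S.n4_sum_theta j m (by omega)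
  rw [sum_eq_sum_Ico_succ_bot (by omega), ← hss] at hΘ2
  have hbm := S.n4_bm j j m le_rfl (by omega) (by omega)
  have h1 := S.tup_gen j m n (by omega) hn0 (4 * (S.θ j + (S.ss m - S.ss j))) (by linarith)
  refine h1.trans ?_
  set T := S.ss m - S.ss j with hT
  set t := S.θ j + T with ht
  have hT0 : 0 < T := by linarith
  have ht0 : 0 < t := by linarith
  have hts := S.n4_small j t ht0.le hΘ2
  have hq : 0 < S.q m := by
    unfold q qc
    have : 0 < S.ε m := (S.inv m).eps_pos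
    have := S.n4_b_pos m
    have := S.n4_L m
    positivity
  have hτ := S.n4_tau j
  have hτm := S.n4_tau m
  have hn' : (n : ℝ) ≤ 5 * 2 ^ S.e j := by exact_mod_cast hn
  have hb := S.n4_b_pos m
  have hN1 : (2 : ℝ) ^ S.e j ≤ 2 ^ S.e (j + 1) := by
    apply pow_le_pow_right₀ (by norm_num)
    have := S.e_step j
    omega
  have hτdef : S.τ j = S.θ j * (S.ε j * 2 ^ S.e j) := rfl
  set N : ℝ := 2 ^ S.e j with hN
  have hNpos : 0 < N := by positivity
  set F := Fs (S.W j) (S.K j) T with hF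
  set F4 := Fs (S.W j) (S.K j) (4 * t) with hF4def
  have hεF : S.ε j ≤ F := by
    have h4 := Fs_mono (S.W j) (S.K j) (S.inv j).law.nonneg 0 T hT0.le
    rw [Fs_zero] at h4
    exact h4
  have hε : 0 < S.ε j := (S.inv j).eps_pos
  have hF4nn : 0 ≤ F4 := by
    have h4 := Fs_mono (S.W j) (S.K j) (S.inv j).law.nonneg 0 (4 * t) (by linarith)
    rw [Fs_zero] at h4
    exact (S.inv j).eps_pos.le.trans h4
  have hF4le : F4 ≤ 6 / 5 * F + 6 * t := by
    by_cases hc : S.θ j ≤ T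
    · have h4 := S.n4_F4 j t ht0 hts
      have h5 : Fs (S.W j) (S.K j) t ≤ Fs (S.W j) (S.K j) (2 * T) :=
        Fs_mono (S.W j) (S.K j) (S.inv j).law.nonneg t (2 * T) (by linarith)
      have h6 := S.n4_F2 j T hT0 (by linarith)
      have hF0 : 0 < F := by linarith
      linarith
    · push Not at hc
      have h4 := Inv.Fs_flat _ _ _ _ _ (S.inv j) (4 * t) (by linarith) (by linarith)
      have h5 : 4 * t / S.θ j ≤ 8 := by
        rw [div_le_iff₀ hθj]; linarith
      have h6 : (1 + 3 / 200 * (4 * t / S.θ j)) * epsL (S.W j) (S.K j) ≤ (1 + 3 / 200 * 8) * S.ε j := by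
        unfold ε
        have := (S.inv j).eps_pos
        gcongr
      linarith
  have hA : (n : ℝ) * (4 * t * F4) ≤ 1 / 10 * (t * S.b m) + 480 := by
    calc (n : ℝ) * (4 * t * F4) ≤ (5 * N) * (4 * t * (6 / 5 * F + 6 * t)) := by
          gcongr
      _ = 24 * t * (N * F) + 120 * (N * t ^ 2) := by ring
      _ ≤ 100 * t * (N * F) + 120 * 4 := by
          have hF0 : 0 < F := by linarith
          gcongr
          norm_num
      _ = 1 / 10 * (t * (1000 * (N * F))) + 480 := by ring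
      _ ≤ 1 / 10 * (t * S.b m) + 480 := by
          gcongr
  have hB : (n : ℝ) * (1 / 2000 * (1 / 2 ^ S.e (j + 1))) ≤ 1 := by
    calc (n : ℝ) * (1 / 2000 * (1 / 2 ^ S.e (j + 1))) ≤ (5 * N) * (1 / 2000 * (1 / N)) := by gcongr
      _ = 5 / 2000 := by field_simp
      _ ≤ 1 := by norm_num
  have hD : 1000 * S.τ j ≤ t * S.b m := by
    calc 1000 * S.τ j = S.θ j * (1000 * (N * S.ε j)) := by rw [hτdef]; ring
      _ ≤ t * (1000 * (N * F)) := by
          gcongr
          linarith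
      _ ≤ t * S.b m := by gcongr
  have hC : -(9 / 2 * S.τ m) - (4 * t - T) * (S.b m - 1) +
      n * (4 * t * F4 + 1 / 2000 * (1 / 2 ^ S.e (j + 1))) ≤ -(100 * S.τ j) := by
    have h6 : (4 * t - T) * (S.b m - 1) = (4 * t - T) * S.b m - (4 * t - T) := by ring
    have h7 : 3 * t * S.b m ≤ (4 * t - T) * S.b m := by
      gcongr
      linarith
    rw [h6, mul_add]
    linarith
  calc 2 * S.q m * Real.exp (-(9 / 2 * S.τ m) - (4 * t - T) * (S.b m - 1) +
      n * (4 * t * F4 + 1 / 2000 * (1 / 2 ^ S.e (j + 1)))) ≤ 2 * S.q m * Real.exp (-(100 * S.τ j)) := by gcongr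
    _ ≤ 3 * S.q m * Real.exp (-(100 * S.τ j)) := by gcongr; norm_num

end Sys

end HW
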