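import Pool.Agent.Helper16.HW.R0
import Pool.Agent.Helper1.HW.A1b
import Pool.Agent.Helper97.HW.A2

/-! Block R2 of MP_074879_pr. -/

open Finset

namespace HW

theorem ms_pos_aux {w : ℕ → ℝ} {K : ℕ} (hw : ∀ k, 0 ≤ w k) (h : 0 < ∑ k ∈ range K, w k) (s : ℝ) :
    0 < ms w K s := by
  unfold ms
  by_contra hcon
  push Not at hcon
  have h1 : ∀ k ∈ range K, 0 ≤ w k * Real.exp (-s * ((k : ℝ) - 1)) := by
    intro k _
    have := hw k
    positivity
  have h2 : ∑ k ∈ range K, w k * Real.exp (-s * ((k : ℝ) - 1)) = 0 :=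
    le_antisymm hcon (sum_nonneg h1)
  have h3 := (sum_eq_zero_iff_of_nonneg h1).mp h2
  have h4 : ∑ k ∈ range K, w k = 0 := by
    apply sum_eq_zero
    intro k hk
    have h5 := h3 k hk
    rcases mul_eq_zero.mp h5 with h6 | h6
    · exact h6
    · exact absurd h6 (Real.exp_pos _).ne'
  linarith

/-- truncated drifts of tilted laws increase with the tilt -/
theorem Dp_tilt_mono {w : ℕ → ℝ} {K : ℕ} (hw : ∀ k, 0 ≤ w k) (s t : ℝ) (hst : s ≤ t)
    (hs : 0 < ms w K s) (ht : 0 < ms w K t) (x : ℕ) :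
    Dp (tilt w K s) x * ms w K s ≤ Dp (tilt w K t) x * ms w K t := by
  unfold Dp
  rw [sum_mul, sum_mul]
  apply sum_le_sum
  intro k _
  have hwk := hw k
  have h1 : (1 - (k : ℝ)) * tilt w K s k * ms w K s =
      w k * ((1 - (k : ℝ)) * Real.exp (-s * ((k : ℝ) - 1))) := by
    unfold tilt; field_simp
  have h2 : (1 - (k : ℝ)) * tilt w K t k * ms w K t =
      w k * ((1 - (k : ℝ)) * Real.exp (-t * ((k : ℝ) - 1))) := by
    unfold tilt; field_simp
  rw [h1, h2]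
  apply mul_le_mul_of_nonneg_left _ hwk
  rcases Nat.eq_zero_or_pos k with hk | hk
  · subst hk
    push_cast
    have : Real.exp (-s * (0 - 1)) ≤ Real.exp (-t * (0 - 1)) := by
      rw [Real.exp_le_exp]; linarith
    linarith
  · have hk1 : (1 : ℝ) ≤ k := by exact_mod_cast hk
    have : Real.exp (-t * ((k : ℝ) - 1)) ≤ Real.exp (-s * ((k : ℝ) - 1)) := by
      rw [Real.exp_le_exp]; nlinarith
    nlinarith

section R
variable (w : ℕ → ℝ) (K : ℕ) (θ : ℝ) (e L : ℕ)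

/-- R2: doubling the tilt changes `Φ` and `ε` little -/
theorem Inv.Phi_double (h : Inv w K θ e L) (L' : ℕ) (hL' : L' = L ∨ L' = L + 1)
    (hLe : L' ^ 5 ≤ e + L) (θ' : ℝ)
    (h1 : (L' : ℝ) ≤ θ' * (epsL w K * 2 ^ (e + L))) (h2 : (2 * θ') ^ 2 * 2 ^ (e + L) ≤ 1) :
    epsL (nextW w K θ e L (2 * θ')) (nextK w K e L) ≤
      51 / 50 * epsL (nextW w K θ e L θ') (nextK w K e L) ∧
    Phi (nextW w K θ e L (2 * θ')) (nextK w K e L) (e + L) ≤
      6 / 5 * Phi (nextW w K θ e L θ') (nextK w K e L) (e + L) + 6 / 5 := by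
  have hLge : (1000 : ℝ) ≤ L := by exact_mod_cast h.L_ge
  have hL'ge : (1000 : ℝ) ≤ L' := by
    rcases hL' with h0 | h0
    · rw [h0]; exact hLge
    · rw [h0]; push_cast; linarith
  have hε := h.eps_pos
  have hN : (0 : ℝ) < 2 ^ (e + L) := by positivity
  have hθ' : 0 < θ' := by
    have h3 : 0 < θ' * (epsL w K * 2 ^ (e + L)) := by linarith
    have h4 : 0 < epsL w K * 2 ^ (e + L) := by positivity
    exact (pos_iff_pos_of_mul_pos h3).mpr h4
  have h1' : (L' : ℝ) ≤ (2 * θ') * (epsL w K * 2 ^ (e + L)) := by nlinarith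
  have h2' : θ' ^ 2 * 2 ^ (e + L) ≤ 1 := by nlinarith
  obtain ⟨I1, E1, G1⟩ := Inv.next w K θ e L h L' hL' hLe θ' h1 h2'
  obtain ⟨I2, E2, G2⟩ := Inv.next w K θ e L h L' hL' hLe (2 * θ') h1' h2
  have T1 := Inv.theta_small _ _ _ _ _ I1
  obtain ⟨g0, g1, g2, g3, g4, g5, g6⟩ := Inv.col_facts w K θ e L h
  have hu0 : ∀ k, 0 ≤ w k + phCol w K θ e L k := fun k => add_nonneg (h.law.nonneg k) (g0 k)
  have hus : ∀ k, nextK w K e L ≤ k → w k + phCol w K θ e L k = 0 := by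
    intro k hk
    rw [g2 k hk, h.law.supp k ((le_nextK w K e L).trans hk), add_zero]
  have hreg := Inv.reg_add w K θ e L h
  have hD1nn := I1.eps_pos
  have hD2nn := I2.eps_pos
  have hθ1 := I1.eps_le_one
  -- smallness of θ'
  have he : (10 ^ 15 : ℝ) ≤ ((e + L : ℕ) : ℝ) := by exact_mod_cast I1.e_ge
  set ε1 := epsL (nextW w K θ e L θ') (nextK w K e L) with hε1
  set ε2 := epsL (nextW w K θ e L (2 * θ')) (nextK w K e L) with hε2
  have hsmall : 1000 * θ' ≤ ε1 / 1000 := by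
    refine le_trans ?_ T1
    have : (1000 : ℝ) ≤ ((e + L : ℕ) : ℝ) ^ 3 := by
      calc (1000 : ℝ) ≤ (10 ^ 15) ^ 3 := by norm_num
        _ ≤ ((e + L : ℕ) : ℝ) ^ 3 := by gcongr
    gcongr
  have hθs : θ' ≤ 1 / 1000000 := by linarith
  set u : ℕ → ℝ := fun k => w k + phCol w K θ e L k with hu
  set J := nextK w K e L with hJ
  obtain ⟨m1a, m1b⟩ := Inv.ms_bounds w K θ e L h θ' hθ'.le (by linarith)
  obtain ⟨m2a, m2b⟩ := Inv.ms_bounds w K θ e L h (2 * θ') (by linarith) (by linarith)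
  rw [← hJ] at m1a m1b m2a m2b
  have hJ1 : 1 ≤ J := le_trans (Nat.succ_le_succ (Nat.zero_le _)) (le_max_right _ _)
  have hepsu : 0 ≤ epsL u J := by
    have h5 := Inv.Fs_add_ge w K θ e L h 0 le_rfl
    rw [← hJ, Fs_zero] at h5
    change _ ≤ Fs u J 0 at h5
    rw [Fs_zero] at h5
    refine le_trans ?_ h5
    have : (1 : ℝ) / L ≤ 1 / 1000 := one_div_le_one_div_of_le (by norm_num) hLge
    have : (0 : ℝ) ≤ 1 - 1 / (L : ℝ) := by linarith
    positivity
  have hdb := Fs_double u J hu0 hus hepsu hJ1 hreg θ' hθ' (by linarith)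
  have hu01 : u 0 ≤ 1 := by
    have h6 : phCol w K θ e L 0 = 0 := by
      apply g3
      have : 0 ≤ epsL w K * 2 ^ e := by positivity
      exact_mod_cast this
    have h7 := h.w_le_one 0
    show w 0 + phCol w K θ e L 0 ≤ 1
    rw [h6]; linarith
  have hF1nn : 0 ≤ Fs u J θ' := by
    have : Fs u J 0 ≤ Fs u J θ' := Fs_mono u J hu0 0 θ' hθ'.le
    rw [Fs_zero] at this
    exact hepsu.trans this
  have hm12 : ms u J θ' ≤ ms u J (2 * θ') := by
    have := ms_ge u J hu0 θ' (2 * θ')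
    nlinarith
  have hF1 : Fs u J θ' = ε1 * ms u J θ' := by
    rw [E1, div_mul_cancel₀ _ (lt_of_lt_of_le one_pos m1a).ne']
  have hu00 := hu0 0
  have hepsle : ε2 ≤ 51 / 50 * ε1 := by
    rw [E2, div_le_iff₀ (by linarith)]
    have h8 : 11 / 10 * u 0 * θ' ≤ 3 / 500 * ε1 := by
      have : 11 / 10 * u 0 * θ' ≤ 11 / 10 * 1 * θ' := by gcongr
      linarith
    calc Fs u J (2 * θ') ≤ 1014 / 1000 * Fs u J θ' + 11 / 10 * u 0 * θ' := hdb
      _ ≤ 1014 / 1000 * (ε1 * ms u J θ') + 3 / 500 * ε1 := by rw [← hF1]; linarith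
      _ ≤ 1014 / 1000 * (ε1 * ms u J (2 * θ')) + 3 / 500 * (ε1 * ms u J (2 * θ')) := by
          have h9 : ε1 ≤ ε1 * ms u J (2 * θ') := by nlinarith
          have h10 : ε1 * ms u J θ' ≤ ε1 * ms u J (2 * θ') := by gcongr
          linarith
      _ = 51 / 50 * ε1 * ms u J (2 * θ') := by ring
  refine ⟨hepsle, ?_⟩
  -- ratio of the masses
  have hF2 : Fs u J (2 * θ') ≤ 2 := by
    rw [show Fs u J (2 * θ') = ε2 * ms u J (2 * θ') by
      rw [E2, div_mul_cancel₀ _ (lt_of_lt_of_le one_pos m2a).ne']]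
    have h11 := I2.eps_le_one
    rw [← hε2] at h11
    have h12 : ms u J (2 * θ') ≤ 2 := by
      have h13 : 1 / (8 * (L : ℝ) * 2 ^ (e + L)) ≤ 1 / 8 := by
        apply one_div_le_one_div_of_le (by norm_num)
        have : (1 : ℝ) ≤ 2 ^ (e + L) := one_le_pow₀ (by norm_num)
        nlinarith
      linarith
    have h14 : 0 ≤ ms u J (2 * θ') := by linarith
    nlinarith
  have hratio : ms u J (2 * θ') ≤ (1 + 2 * θ') * ms u J θ' := by
    have := ms_ge u J hu0 (2 * θ') θ'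
    have h15 : θ' * Fs u J (2 * θ') ≤ θ' * 2 := by gcongr
    nlinarith
  set W1 := nextW w K θ e L θ' with hW1
  set W2 := nextW w K θ e L (2 * θ') with hW2
  have hDD : ∀ x : ℕ, Dp W1 x * ms u J θ' ≤ Dp W2 x * ms u J (2 * θ') := by
    intro x
    exact Dp_tilt_mono hu0 θ' (2 * θ') (by linarith) (by linarith) (by linarith) x
  have hD1 : ∀ x : ℕ, 1 ≤ x → ε1 ≤ Dp W1 x := fun x hx =>
    eps_le_Dp W1 J I1.law.nonneg I1.law.supp x hx
  have hD2 : ∀ x : ℕ, 1 ≤ x → ε2 ≤ Dp W2 x := fun x hx =>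
    eps_le_Dp W2 J I2.law.nonneg I2.law.supp x hx
  have hinv : ∀ x : ℕ, 1 ≤ x → 1 / Dp W2 x ≤ (1 + 2 * θ') * (1 / Dp W1 x) := by
    intro x hx
    have a1 := hD1 x hx
    have a2 := hD2 x hx
    have b1 : 0 < Dp W1 x := by linarith
    have b2 : 0 < Dp W2 x := by linarith
    rw [mul_one_div, div_le_div_iff₀ b2 b1, one_mul]
    have h16 := hDD x
    have h17 : Dp W2 x * ms u J (2 * θ') ≤ Dp W2 x * ((1 + 2 * θ') * ms u J θ') := by gcongr
    have h18 : Dp W1 x * ms u J θ' ≤ ((1 + 2 * θ') * Dp W2 x) * ms u J θ' := by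
      refine (h16.trans h17).trans (le_of_eq ?_)
      ring
    exact le_of_mul_le_mul_right h18 (by linarith)
  set N : ℝ := 2 ^ (e + L) with hNdef
  have hterm : ∀ a ∈ range (e + L + 1), (if (2 : ℝ) ^ a ≤ ε2 * N then 1 / Dp W2 (2 ^ a) else 0) ≤
      (1 + 2 * θ') * (if (2 : ℝ) ^ a ≤ ε1 * N then 1 / Dp W1 (2 ^ a) else 0) +
      (if ε1 * N < 2 ^ a ∧ (2 : ℝ) ^ a ≤ ε2 * N then 1 / ε2 else 0) := by
    intro a _
    have hx : 1 ≤ 2 ^ a := Nat.one_le_two_pow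
    by_cases c2 : (2 : ℝ) ^ a ≤ ε2 * N
    · rw [if_pos c2]
      by_cases c1 : (2 : ℝ) ^ a ≤ ε1 * N
      · rw [if_pos c1, if_neg (by intro hc; linarith [hc.1]), add_zero]
        exact hinv _ hx
      · rw [if_neg c1, if_pos ⟨lt_of_not_ge c1, c2⟩, mul_zero, zero_add]
        exact one_div_le_one_div_of_le hD2nn (hD2 _ hx)
    · simp only [c2, and_false, if_false, add_zero]
      apply mul_nonneg (by linarith)
      split_ifs
      · have := hD1 _ hx
        have : 0 < Dp W1 (2 ^ a) := by linarith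
        positivity
      · exact le_rfl
  have hextra : ∑ a ∈ range (e + L + 1), (if ε1 * N < 2 ^ a ∧ (2 : ℝ) ^ a ≤ ε2 * N then 1 / ε2 else 0) ≤
      1 / ε2 := by
    rw [← sum_filter, sum_const, nsmul_eq_mul]
    have hcard : ((range (e + L + 1)).filter (fun a : ℕ => ε1 * N < 2 ^ a ∧ (2 : ℝ) ^ a ≤ ε2 * N)).card ≤ 1 := by
      rw [card_le_one]
      have key : ∀ a b : ℕ, ε1 * N < 2 ^ a → (2 : ℝ) ^ b ≤ ε2 * N → ¬ a < b := by
        intro a b ha hb hab
        have h19 : (2 : ℝ) ^ (a + 1) ≤ 2 ^ b := pow_le_pow_right₀ (by norm_num) hab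
        rw [pow_succ] at h19
        have h20 : ε2 * N ≤ (51 / 50 * ε1) * N := by gcongr
        nlinarith [mul_pos hD1nn hN]
      intro a ha b hb
      rw [mem_filter] at ha hb
      have k1 := key a b ha.2.1 hb.2.2
      have k2 := key b a hb.2.1 ha.2.2
      omega
    calc _ ≤ ((1 : ℕ) : ℝ) * (1 / ε2) := by
          gcongr
      _ = 1 / ε2 := by simp
  have hhs : hsum W2 (e + L) (ε2 * N) ≤ (1 + 2 * θ') * hsum W1 (e + L) (ε1 * N) + 1 / ε2 := by
    unfold hsum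
    refine (sum_le_sum hterm).trans ?_
    rw [sum_add_distrib, ← mul_sum]
    exact add_le_add le_rfl hextra
  have hh1 : 0 ≤ hsum W1 (e + L) (ε1 * N) := by
    unfold hsum
    apply sum_nonneg
    intro a _
    split_ifs
    · have := hD1 _ (Nat.one_le_two_pow : 1 ≤ 2 ^ a)
      have : 0 < Dp W1 (2 ^ a) := by linarith
      positivity
    · exact le_rfl
  unfold Phi
  rw [← hε1, ← hε2, ← hNdef]
  calc ε2 * hsum W2 (e + L) (ε2 * N) ≤ ε2 * ((1 + 2 * θ') * hsum W1 (e + L) (ε1 * N) + 1 / ε2) := by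
        gcongr
    _ = (ε2 * (1 + 2 * θ')) * hsum W1 (e + L) (ε1 * N) + 1 := by field_simp
    _ ≤ (6 / 5 * ε1) * hsum W1 (e + L) (ε1 * N) + 6 / 5 := by
        have h21 : ε2 * (1 + 2 * θ') ≤ 6 / 5 * ε1 := by nlinarith
        have h22 : (ε2 * (1 + 2 * θ')) * hsum W1 (e + L) (ε1 * N) ≤ (6 / 5 * ε1) * hsum W1 (e + L) (ε1 * N) :=
          mul_le_mul_of_nonneg_right h21 hh1
        linarith
    _ = 6 / 5 * (ε1 * hsum W1 (e + L) (ε1 * N)) + 6 / 5 := by ring

end R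

end HW
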